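import Mathlib
import Pool.Agent.U949.CL.Seq
import Pool.Agent.U949.CL.Err

/-! Central limit theorem and square root error for weighted sums of indicators, for triangular arrays
of independent events (after `U949.CL` of helper949, which has one family of events). -/

set_option autoImplicit false

namespace Pool.Agent.U827.GM

open MeasureTheory ProbabilityTheory Filter Topology Finset Pool.Agent.U949.CL

variable {Ω : Type*} [MeasurableSpace Ω] {μ : Measure Ω} [IsProbabilityMeasure μ]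

theorem clt_seq {ι : Type*} (T : ℕ → ι → Set Ω) (hT : ∀ n i, MeasurableSet (T n i))
    (hind : ∀ n, iIndepSet (T n) μ)
    (F : ℕ → Finset ι) (w : ℕ → ι → ℝ) (B V : ℕ → ℝ) (K : ℝ)
    (hV : ∀ n, V n = ∑ i ∈ F n, w n i ^ 2 * (μ.real (T n i) * (1 - μ.real (T n i))))
    (hw : ∀ᶠ n in atTop, ∀ i ∈ F n, |w n i| ≤ B n) (hB0 : ∀ n, 0 ≤ B n)
    (hV0 : ∀ᶠ n in atTop, 0 < V n)
    (hB : Tendsto (fun n => B n / √(V n)) atTop (𝓝 0))
    (hK : ∀ᶠ n in atTop, ∑ i ∈ F n, w n i ^ 2 * μ.real (T n i) ≤ K * V n) (x : ℝ) :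
    Tendsto (fun n => μ.real {ω | ∑ i ∈ F n, w n i * (I1 (T n i) ω - μ.real (T n i)) ≤ x * √(V n)}) atTop
      (𝓝 ((gaussianReal 0 1).real (Set.Iic x))) := by
  set X : ℕ → Ω → ℝ := fun n ω => ∑ i ∈ F n, w n i / √(V n) * (I1 (T n i) ω - μ.real (T n i)) with hX
  have hXm : ∀ n, Measurable (X n) := by
    intro n
    refine Finset.measurable_sum _ fun i _ => ?_
    have := I1_meas (hT n i)
    fun_prop
  have hlaw : ∀ n, IsProbabilityMeasure (μ.map (X n)) := fun n =>
    Measure.isProbabilityMeasure_map (hXm n).aemeasurable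
  have hmain := cdf_tendsto (fun n => μ.map (X n)) (fun θ => ?_) x
  · refine hmain.congr' ?_
    filter_upwards [hV0] with n hn
    rw [map_measureReal_apply (hXm n) measurableSet_Iic]
    congr 1
    ext ω
    have hs : 0 < √(V n) := Real.sqrt_pos.2 hn
    have e : X n ω = (∑ i ∈ F n, w n i * (I1 (T n i) ω - μ.real (T n i))) / √(V n) := by
      rw [hX]
      simp only
      rw [sum_div]
      exact sum_congr rfl fun i _ => by ring
    rw [Set.mem_preimage, Set.mem_Iic, e, div_le_iff₀ hs]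
    rfl
  · rw [tendsto_iff_norm_sub_tendsto_zero]
    have hlim : Tendsto (fun n => 6 * |θ| ^ 3 * K * (B n / √(V n))) atTop (𝓝 0) := by
      simpa using hB.const_mul (6 * |θ| ^ 3 * K)
    refine squeeze_zero' (Eventually.of_forall fun n => norm_nonneg _) ?_ hlim
    have h2 : ∀ᶠ n in atTop, |θ| * (B n / √(V n)) ≤ 1 / 2 := by
      have := hB.const_mul |θ|
      rw [mul_zero] at this
      exact this.eventually (ge_mem_nhds (by norm_num))
    filter_upwards [h2, hw, hV0, hK] with n g1 g2 g3 g4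
    have hs : 0 < √(V n) := Real.sqrt_pos.2 g3
    have hsq : √(V n) ^ 2 = V n := Real.sq_sqrt g3.le
    refine approx (T n) (hT n) (hind n) (F n) (fun i => w n i / √(V n)) θ (B n / √(V n)) K ?_
      (div_nonneg (hB0 n) hs.le) g1 ?_ ?_
    · intro i hi
      rw [abs_div, abs_of_pos hs]
      exact div_le_div_of_nonneg_right (g2 i hi) hs.le
    · calc ∑ i ∈ F n, (w n i / √(V n)) ^ 2 * (μ.real (T n i) * (1 - μ.real (T n i)))
          = ∑ i ∈ F n, (w n i ^ 2 * (μ.real (T n i) * (1 - μ.real (T n i)))) / V n :=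
            sum_congr rfl fun i _ => by rw [div_pow, hsq]; ring
        _ = 1 := by rw [← sum_div, ← hV, div_self g3.ne']
    · calc ∑ i ∈ F n, (w n i / √(V n)) ^ 2 * μ.real (T n i)
          = (∑ i ∈ F n, w n i ^ 2 * μ.real (T n i)) / V n := by
            rw [sum_div]
            exact sum_congr rfl fun i _ => by rw [div_pow, hsq]; ring
        _ ≤ K := by rw [div_le_iff₀ g3]; exact g4

/-- **Central limit theorem** along a filter -/
theorem clt {ι : Type*} (T : ℕ → ι → Set Ω) (hT : ∀ n i, MeasurableSet (T n i))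
    (hind : ∀ n, iIndepSet (T n) μ)
    (F : ℕ → Finset ι) (w : ℕ → ι → ℝ) (B V : ℕ → ℝ) (K : ℝ)
    (hV : ∀ n, V n = ∑ i ∈ F n, w n i ^ 2 * (μ.real (T n i) * (1 - μ.real (T n i))))
    (l : Filter ℕ) [l.IsCountablyGenerated]
    (hw : ∀ᶠ n in l, ∀ i ∈ F n, |w n i| ≤ B n) (hB0 : ∀ n, 0 ≤ B n)
    (hV0 : ∀ᶠ n in l, 0 < V n)
    (hB : Tendsto (fun n => B n / √(V n)) l (𝓝 0))
    (hK : ∀ᶠ n in l, ∑ i ∈ F n, w n i ^ 2 * μ.real (T n i) ≤ K * V n) (x : ℝ) :
    Tendsto (fun n => μ.real {ω | ∑ i ∈ F n, w n i * (I1 (T n i) ω - μ.real (T n i)) ≤ x * √(V n)}) l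
      (𝓝 ((gaussianReal 0 1).real (Set.Iic x))) := by
  refine tendsto_of_seq_tendsto fun u hu => ?_
  exact clt_seq (fun n => T (u n)) (fun n => hT (u n)) (fun n => hind (u n)) (fun n => F (u n)) (fun n => w (u n)) (fun n => B (u n)) (fun n => V (u n)) K
    (fun n => hV (u n)) (hu.eventually hw) (fun n => hB0 _) (hu.eventually hV0) (hB.comp hu)
    (hu.eventually hK) x

/-- **Square root error** -/
theorem sqrt_error {ι : Type*} (T : ℕ → ι → Set Ω) (hT : ∀ n i, MeasurableSet (T n i))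
    (hind : ∀ n, iIndepSet (T n) μ)
    (F : ℕ → Finset ι) (w : ℕ → ι → ℝ) (B V : ℕ → ℝ)
    (hV : ∀ n, V n = ∑ i ∈ F n, w n i ^ 2 * (μ.real (T n i) * (1 - μ.real (T n i)))) (G : ℕ → Prop)
    (hw : ∀ᶠ n : ℕ in atTop, G n → ∀ i ∈ F n, |w n i| ≤ B n)
    (hB : ∀ᶠ n : ℕ in atTop, G n → 0 < V n ∧ 4 * B n ^ 2 * Real.log n ≤ V n) :
    ∀ᵐ ω ∂μ, ∀ᶠ n : ℕ in atTop, G n →
      |∑ i ∈ F n, w n i * (I1 (T n i) ω - μ.real (T n i))| ≤ 3 * √(V n * Real.log n) := by
  classical
  obtain ⟨n0, hn0⟩ := eventually_atTop.1 (hw.and (hB.and (eventually_ge_atTop 2)))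
  set Y : ℕ → Ω → ℝ := fun n ω => ∑ i ∈ F n, w n i * (I1 (T n i) ω - μ.real (T n i)) with hY
  set s : ℕ → Set Ω := fun n => if n0 ≤ n ∧ G n then {ω | 3 * √(V n * Real.log n) < |Y n ω|} else ∅ with hs
  have hsmall : ∀ n, μ (s n) ≤ ENNReal.ofReal (2 * ((n : ℝ) ^ 2)⁻¹) := by
    intro n
    rw [hs]
    simp only
    split_ifs with h
    · obtain ⟨g1, g2, g3⟩ := hn0 n h.1
      have g1 := g1 h.2
      obtain ⟨V0, g2⟩ := g2 h.2
      have hn2 : (2 : ℝ) ≤ n := by exact_mod_cast g3
      have hL : 0 < Real.log (n : ℝ) := Real.log_pos (by linarith)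
      set L := Real.log (n : ℝ) with hLdef
      set t := 2 * √(L / V n) with ht
      have ht0 : 0 ≤ t := by positivity
      have ht2 : t ^ 2 = 4 * (L / V n) := by
        rw [ht, mul_pow, Real.sq_sqrt (by positivity)]
        norm_num
      have hta : t * (3 * √(V n * L)) = 6 * L := by
        rw [ht]
        have : √(L / V n) * √(V n * L) = L := by
          rw [← Real.sqrt_mul (by positivity), show L / V n * (V n * L) = L ^ 2 by
            field_simp, Real.sqrt_sq hL.le]
        calc 2 * √(L / V n) * (3 * √(V n * L)) = 6 * (√(L / V n) * √(V n * L)) := by ring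
          _ = 6 * L := by rw [this]
      have hexp : -t * (3 * √(V n * L)) + t ^ 2 * V n = -(2 * L) := by
        rw [neg_mul, hta, ht2]
        field_simp
        ring
      have htw : ∀ i ∈ F n, |t * w n i| ≤ 1 := by
        intro i hi
        have h1 := g1 i hi
        rw [abs_mul, abs_of_nonneg ht0]
        apply abs_le_of_sq_le_sq' ?_ (by norm_num) |>.2
        rw [mul_pow, ht2, one_pow]
        have h2 : |w n i| ^ 2 ≤ B n ^ 2 := pow_le_pow_left₀ (abs_nonneg _) h1 2
        calc 4 * (L / V n) * |w n i| ^ 2 ≤ 4 * (L / V n) * B n ^ 2 := mul_le_mul_of_nonneg_left h2 (by positivity)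
          _ = (4 * B n ^ 2 * L) / V n := by ring
          _ ≤ 1 := by rw [div_le_one V0]; exact g2
      have c1 := chernoff (T n) (hT n) (hind n) (F n) (w n) t (3 * √(V n * L)) (V n) ht0 (hV n) htw
      have c2 := chernoff (T n) (hT n) (hind n) (F n) (fun i => -w n i) t (3 * √(V n * L)) (V n) ht0
        (by rw [hV n]; exact sum_congr rfl fun i _ => by ring)
        (fun i hi => by rw [mul_neg, abs_neg]; exact htw i hi)
      rw [hexp] at c1 c2
      have hn0' : (0 : ℝ) < n := by linarith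
      have hexp2 : Real.exp (-(2 * L)) = ((n : ℝ) ^ 2)⁻¹ := by
        rw [Real.exp_neg, hLdef, two_mul, Real.exp_add, Real.exp_log hn0', sq]
      rw [hexp2] at c1 c2
      have hsub : {ω | 3 * √(V n * L) < |Y n ω|} ⊆
          {ω | 3 * √(V n * L) ≤ ∑ i ∈ F n, w n i * (I1 (T n i) ω - μ.real (T n i))} ∪
          {ω | 3 * √(V n * L) ≤ ∑ i ∈ F n, -w n i * (I1 (T n i) ω - μ.real (T n i))} := by
        intro ω hω
        rcases lt_abs.1 (show 3 * √(V n * L) < |Y n ω| from hω) with h | h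
        · left
          exact h.le
        · right
          show 3 * √(V n * L) ≤ ∑ i ∈ F n, -w n i * (I1 (T n i) ω - μ.real (T n i))
          have : ∑ i ∈ F n, -w n i * (I1 (T n i) ω - μ.real (T n i)) = -Y n ω := by
            rw [hY]
            simp only
            rw [← sum_neg_distrib]
            exact sum_congr rfl fun i _ => by ring
          rw [this]
          exact h.le
      have h5 : μ.real {ω | 3 * √(V n * L) < |Y n ω|} ≤ 2 * ((n : ℝ) ^ 2)⁻¹ := by
        refine (measureReal_mono hsub (measure_ne_top _ _)).trans ((measureReal_union_le _ _).trans ?_)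
        linarith
      rw [← ENNReal.ofReal_toReal (measure_ne_top μ {ω | 3 * √(V n * L) < |Y n ω|})]
      exact ENNReal.ofReal_le_ofReal h5
    · simp
  have hsummable : Summable (fun n : ℕ => 2 * ((n : ℝ) ^ 2)⁻¹) :=
    (Real.summable_nat_pow_inv.2 (by norm_num)).mul_left 2
  have hfin : ∑' n, μ (s n) ≠ ⊤ := by
    refine ne_top_of_le_ne_top ?_ (ENNReal.tsum_le_tsum hsmall)
    exact hsummable.tsum_ofReal_ne_top
  filter_upwards [ae_eventually_notMem hfin] with ω hω
  filter_upwards [hω, eventually_ge_atTop n0] with n h1 h2 h3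
  by_contra hcon
  apply h1
  rw [hs]
  simp only
  rw [if_pos ⟨h2, h3⟩]
  exact not_le.1 hcon

end Pool.Agent.U827.GM
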