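import Mathlib
import Pool.Agent.U839.Gb.Fin
import Pool.Agent.U827.GM.Clt

/-! The number of Goldbach representations in sieved random models: order of magnitude and Gaussian
fluctuations (uses the library `U839.Gb` of helper839). -/

set_option autoImplicit false

namespace Pool.Agent.U827.GM

open MeasureTheory ProbabilityTheory Filter Finset Topology
open Pool.Agent.U839.Sv (Sieved fT fT_nonneg dens)
open Pool.Agent.U839.Gb
open Pool.Agent.U839.Thin (tlog)
open Pool.Agent.U839.Fb (tloglog)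
open Pool.Agent.U949.CL (I1 I1_meas)

variable {Ω : Type*} [MeasurableSpace Ω] {μ : Measure Ω} [IsProbabilityMeasure μ]

/-! ### the independent events -/

/-- the pair of `a`, or the middle -/
def Um (m a : ℕ) : Finset ℕ := if a < m then {a, 2 * m - a} else if a = m then {m} else ∅

theorem Um_disj (m a b : ℕ) (hab : a ≠ b) : Disjoint (Um m a) (Um m b) := by
  rw [Finset.disjoint_left]
  intro c hc hc'
  unfold Um at hc hc'
  split_ifs at hc hc' <;>
    simp only [mem_insert, mem_singleton, notMem_empty] at hc hc' <;> omega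

/-- `a` and `2 m - a` are chosen -/
def FM (E : ℕ → Set Ω) (m a : ℕ) : Set Ω := ⋂ k ∈ Um m a, E k

omit [IsProbabilityMeasure μ] in
theorem FM_meas {E : ℕ → Set Ω} (hm : ∀ n, MeasurableSet (E n)) (m a : ℕ) :
    MeasurableSet (FM E m a) :=
  Finset.measurableSet_biInter _ (fun k _ => hm k)

omit [IsProbabilityMeasure μ] in
theorem FM_indep {E : ℕ → Set Ω} (hm : ∀ n, MeasurableSet (E n)) (hE : iIndepSet E μ) (m : ℕ) :
    iIndepSet (FM E m) μ := group hm hE (Um m) (Um_disj m)

omit [IsProbabilityMeasure μ] in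
theorem FM_lt {E : ℕ → Set Ω} (hE : iIndepSet E μ) {m a : ℕ} (ha : a < m) :
    μ.real (FM E m a) = μ.real (E a) * μ.real (E (2 * m - a)) := by
  unfold FM
  rw [Pool.Agent.U839.Tp.inter_prob hE]
  unfold Um
  rw [if_pos ha, prod_pair (by omega)]

omit [IsProbabilityMeasure μ] in
theorem FM_self (E : ℕ → Set Ω) (m : ℕ) : μ.real (FM E m m) = μ.real (E m) := by
  unfold FM Um
  rw [if_neg (lt_irrefl m), if_pos rfl]
  congr 1
  simp

/-- the weights -/
noncomputable def wt (m a : ℕ) : ℝ := if a < m then 2 else 1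

/-- the mean -/
noncomputable def meanR (p : ℕ → ℝ) (m : ℕ) : ℝ := 2 * ∑ a ∈ range m, p a * p (2 * m - a) + p m

/-- the variance -/
noncomputable def varR (p : ℕ → ℝ) (m : ℕ) : ℝ :=
  4 * ∑ a ∈ range m, p a * p (2 * m - a) * (1 - p a * p (2 * m - a)) + p m * (1 - p m)

theorem sum_wt (m : ℕ) (f : ℕ → ℝ) :
    ∑ a ∈ range (m + 1), wt m a * f a = 2 * ∑ a ∈ range m, f a + f m := by
  rw [sum_range_succ, mul_sum]
  congr 1
  · refine sum_congr rfl fun a ha => ?_
    rw [mem_range] at ha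
    unfold wt
    rw [if_pos ha]
  · unfold wt
    rw [if_neg (lt_irrefl m), one_mul]

theorem sum_wt_sq (m : ℕ) (f : ℕ → ℝ) :
    ∑ a ∈ range (m + 1), wt m a ^ 2 * f a = 4 * ∑ a ∈ range m, f a + f m := by
  rw [sum_range_succ, mul_sum]
  congr 1
  · refine sum_congr rfl fun a ha => ?_
    rw [mem_range] at ha
    unfold wt
    rw [if_pos ha]
    norm_num
  · unfold wt
    rw [if_neg (lt_irrefl m), one_pow, one_mul]

omit [IsProbabilityMeasure μ] in
theorem var_eq {E : ℕ → Set Ω} (hE : iIndepSet E μ) (m : ℕ) :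
    varR (fun n => μ.real (E n)) m = ∑ a ∈ range (m + 1), wt m a ^ 2 *
      (μ.real (FM E m a) * (1 - μ.real (FM E m a))) := by
  rw [sum_wt_sq m (fun a => μ.real (FM E m a) * (1 - μ.real (FM E m a))), FM_self]
  unfold varR
  congr 2
  refine sum_congr rfl fun a ha => ?_
  rw [mem_range] at ha
  rw [FM_lt hE ha]

theorem rp_eq (Q : Set ℕ) (m : ℕ) [DecidablePred (· ∈ Q)] : (rp Q (2 * m) : ℝ) =
    2 * ∑ a ∈ range m, (if a ∈ Q ∧ 2 * m - a ∈ Q then (1 : ℝ) else 0) +
      (if m ∈ Q then (1 : ℝ) else 0) := by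
  classical
  obtain ⟨f, hf⟩ : ∃ f : ℕ → ℕ, f = fun a => if a ∈ Q ∧ 2 * m - a ∈ Q then 1 else 0 := ⟨_, rfl⟩
  have h1 : rp Q (2 * m) = ∑ a ∈ range (2 * m + 1), f a := by
    unfold rp
    rw [card_filter, Finset.Nat.sum_antidiagonal_eq_sum_range_succ_mk, hf]
    refine sum_congr rfl fun a _ => ?_
    simp only
    congr
  have h3 : ∑ a ∈ range (2 * m + 1), f a = ∑ a ∈ range m, f a + f m + ∑ a ∈ range m, f (m + 1 + a) := by
    have e : 2 * m + 1 = m + 1 + m := by ring
    rw [e, sum_range_add, sum_range_succ]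
  have h4 : ∑ a ∈ range m, f (m + 1 + a) = ∑ a ∈ range m, f a := by
    rw [← sum_range_reflect (fun a => f (m + 1 + a)) m]
    apply sum_congr rfl
    intro a ha
    rw [mem_range] at ha
    rw [hf]
    simp only
    have e1 : m + 1 + (m - 1 - a) = 2 * m - a := by omega
    have e2 : 2 * m - (2 * m - a) = a := by omega
    rw [e1, e2]
    by_cases k1 : a ∈ Q <;> by_cases k2 : 2 * m - a ∈ Q <;> simp [k1, k2]
  have h5 : ((∑ a ∈ range m, f a : ℕ) : ℝ) =
      ∑ a ∈ range m, (if a ∈ Q ∧ 2 * m - a ∈ Q then (1 : ℝ) else 0) := by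
    rw [Nat.cast_sum]
    refine sum_congr rfl fun a _ => ?_
    rw [hf]
    simp only
    split_ifs <;> simp
  have h6 : ((f m : ℕ) : ℝ) = if m ∈ Q then (1 : ℝ) else 0 := by
    rw [hf]
    have e : 2 * m - m = m := by omega
    simp only [e, and_self]
    split_ifs <;> simp
  rw [h1, h3, h4]
  push_cast
  rw [Nat.cast_sum] at h5
  rw [h5, h6]
  ring

omit [IsProbabilityMeasure μ] in
/-- the centred number of representations -/
theorem rp_sub {E : ℕ → Set Ω} (hE : iIndepSet E μ) (m : ℕ) (ω : Ω) :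
    (rp {n | ω ∈ E n} (2 * m) : ℝ) - meanR (fun n => μ.real (E n)) m =
      ∑ a ∈ range (m + 1), wt m a * (I1 (FM E m a) ω - μ.real (FM E m a)) := by
  classical
  have h1 : ∑ a ∈ range (m + 1), wt m a * (I1 (FM E m a) ω - μ.real (FM E m a)) =
      ∑ a ∈ range (m + 1), wt m a * I1 (FM E m a) ω -
        ∑ a ∈ range (m + 1), wt m a * μ.real (FM E m a) := by
    rw [← sum_sub_distrib]
    exact sum_congr rfl fun a _ => mul_sub _ _ _
  rw [h1, sum_wt m (fun a => I1 (FM E m a) ω), sum_wt m (fun a => μ.real (FM E m a)), FM_self,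
    rp_eq]
  have h2 : ∑ a ∈ range m, (if a ∈ {n | ω ∈ E n} ∧ 2 * m - a ∈ {n | ω ∈ E n} then (1 : ℝ) else 0) =
      ∑ a ∈ range m, I1 (FM E m a) ω := by
    refine sum_congr rfl fun a ha => ?_
    rw [mem_range] at ha
    unfold I1
    rw [Set.indicator_apply]
    congr 1
    unfold FM Um
    rw [if_pos ha]
    simp
  have h3 : (if m ∈ {n | ω ∈ E n} then (1 : ℝ) else 0) = I1 (FM E m m) ω := by
    unfold I1
    rw [Set.indicator_apply]
    congr 1
    unfold FM Um
    rw [if_neg (lt_irrefl m), if_pos rfl]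
    simp
  have h4 : ∑ a ∈ range m, μ.real (FM E m a) =
      ∑ a ∈ range m, μ.real (E a) * μ.real (E (2 * m - a)) :=
    sum_congr rfl fun a ha => FM_lt hE (mem_range.1 ha)
  rw [h2, h3, h4]
  unfold meanR
  ring

end Pool.Agent.U827.GM
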