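import Mathlib
import Pool.Agent.U827.GM.Gold

/-! The expectation and the variance of the number of Goldbach representations in random models. -/

set_option autoImplicit false

namespace Pool.Agent.U827.GM

open MeasureTheory ProbabilityTheory Filter Finset Topology
open Pool.Agent.U839.Gb (rp)
open Pool.Agent.U949.CL (I1 I1_meas)

variable {Ω : Type*} [MeasurableSpace Ω] {μ : Measure Ω} [IsProbabilityMeasure μ]

omit [IsProbabilityMeasure μ] in
theorem I1_int {F : Set Ω} (hF : MeasurableSet F) : ∫ ω, I1 F ω ∂μ = μ.real F := by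
  unfold I1
  rw [integral_indicator_const _ hF, smul_eq_mul, mul_one]

theorem I1_mem {F : Set Ω} (hF : MeasurableSet F) : MemLp (I1 F) 2 μ := by
  apply MemLp.of_bound (I1_meas hF).aestronglyMeasurable 1
  filter_upwards with ω
  unfold I1
  by_cases h : ω ∈ F
  · rw [Set.indicator_of_mem h]; norm_num
  · rw [Set.indicator_of_notMem h]; norm_num

theorem I1_var {F : Set Ω} (hF : MeasurableSet F) : Var[I1 F; μ] = μ.real F * (1 - μ.real F) := by
  rw [variance_eq_sub (I1_mem hF)]
  have h1 : (I1 F) ^ 2 = I1 F := by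
    ext ω
    rw [Pi.pow_apply]
    unfold I1
    by_cases h : ω ∈ F
    · rw [Set.indicator_of_mem h]; norm_num
    · rw [Set.indicator_of_notMem h]; norm_num
  have h2 : ∫ ω, I1 F ω ∂μ = μ.real F := I1_int hF
  rw [h1, h2]
  ring

/-- the number of representations as a sum -/
theorem rp_fun {E : ℕ → Set Ω} (hE : iIndepSet E μ) (m : ℕ) :
    (fun ω => (rp {n | ω ∈ E n} (2 * m) : ℝ)) =
      fun ω => (∑ a ∈ range (m + 1), fun ω => wt m a * I1 (FM E m a) ω) ω := by
  ext ω
  have h := rp_sub hE m ω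
  have h1 : ∑ a ∈ range (m + 1), wt m a * (I1 (FM E m a) ω - μ.real (FM E m a)) =
      ∑ a ∈ range (m + 1), wt m a * I1 (FM E m a) ω -
        ∑ a ∈ range (m + 1), wt m a * μ.real (FM E m a) := by
    rw [← sum_sub_distrib]
    exact sum_congr rfl fun a _ => mul_sub _ _ _
  have h2 : ∑ a ∈ range (m + 1), wt m a * μ.real (FM E m a) = meanR (fun n => μ.real (E n)) m := by
    rw [sum_wt m (fun a => μ.real (FM E m a)), FM_self]
    unfold meanR
    congr 2
    exact sum_congr rfl fun a ha => FM_lt hE (mem_range.1 ha)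
  rw [h1, h2] at h
  rw [Finset.sum_apply]
  linarith

theorem rp_int {E : ℕ → Set Ω} (hm : ∀ n, MeasurableSet (E n)) (hE : iIndepSet E μ) (m : ℕ) :
    ∫ ω, (rp {n | ω ∈ E n} (2 * m) : ℝ) ∂μ = meanR (fun n => μ.real (E n)) m := by
  rw [rp_fun hE m]
  simp only [Finset.sum_apply]
  rw [integral_finsetSum _ fun a _ =>
    (((I1_mem (FM_meas hm m a)).integrable (by norm_num)).const_mul (wt m a))]
  have h2 : ∑ a ∈ range (m + 1), wt m a * μ.real (FM E m a) = meanR (fun n => μ.real (E n)) m := by
    rw [sum_wt m (fun a => μ.real (FM E m a)), FM_self]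
    unfold meanR
    congr 2
    exact sum_congr rfl fun a ha => FM_lt hE (mem_range.1 ha)
  rw [← h2]
  refine sum_congr rfl fun a _ => ?_
  rw [integral_const_mul, I1_int (FM_meas hm m a)]

theorem rp_var {E : ℕ → Set Ω} (hm : ∀ n, MeasurableSet (E n)) (hE : iIndepSet E μ) (m : ℕ) :
    Var[fun ω => (rp {n | ω ∈ E n} (2 * m) : ℝ); μ] = varR (fun n => μ.real (E n)) m := by
  rw [rp_fun hE m]
  have hind : iIndepFun (fun a ω => wt m a * I1 (FM E m a) ω) μ :=
    (FM_indep hm hE m).iIndepFun_indicator.comp (fun a x => wt m a * x) (fun a => by fun_prop)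
  have h1 : Var[∑ a ∈ range (m + 1), fun ω => wt m a * I1 (FM E m a) ω; μ] =
      ∑ a ∈ range (m + 1), Var[fun ω => wt m a * I1 (FM E m a) ω; μ] := by
    apply IndepFun.variance_sum
    · intro a _
      exact (I1_mem (FM_meas hm m a)).const_mul (wt m a)
    · intro a _ b _ hab
      exact hind.indepFun hab
  have h2 : (fun ω => (∑ a ∈ range (m + 1), fun ω => wt m a * I1 (FM E m a) ω) ω) =
      ∑ a ∈ range (m + 1), fun ω => wt m a * I1 (FM E m a) ω := rfl
  rw [h2, h1, var_eq hE m]
  refine sum_congr rfl fun a _ => ?_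
  rw [variance_const_mul, I1_var (FM_meas hm m a)]

end Pool.Agent.U827.GM
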