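import Mathlib
import Pool.Agent.U839.Gb.Fin

/-! The order of magnitude of the number of Goldbach representations in sieved random models (uses the
library `U839.Gb` of helper839). -/

set_option autoImplicit false

namespace Pool.Agent.U827.GM

open MeasureTheory ProbabilityTheory Filter Finset Topology
open Pool.Agent.U839.Sv (Sieved)
open Pool.Agent.U839.Gb
open Pool.Agent.U839.Thin (tlog)
open Pool.Agent.U839.Fb (tloglog)

variable {Ω : Type*} [MeasurableSpace Ω] {μ : Measure Ω} [IsProbabilityMeasure μ]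

theorem kk_prod {n : ℕ} (hn : n ≠ 0) : ∏ p ∈ n.primeFactors, kk p = (n : ℝ) / Nat.totient n := by
  have h1 : (Nat.totient n : ℝ) = n * ∏ p ∈ n.primeFactors, (1 - (p : ℝ)⁻¹) := by
    have := congrArg (fun x : ℚ => (x : ℝ)) (Nat.totient_eq_mul_prod_factors n)
    push_cast at this
    exact this
  have h2 : ∏ p ∈ n.primeFactors, kk p = (∏ p ∈ n.primeFactors, (1 - (p : ℝ)⁻¹))⁻¹ := by
    rw [← prod_inv_distrib]
    refine prod_congr rfl fun p _ => ?_
    unfold kk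
    rw [one_div]
  have h3 : (n : ℝ) ≠ 0 := by exact_mod_cast hn
  rw [h2, h1, div_mul_eq_div_div, div_self h3, one_div]

theorem SHL_phi {n : ℕ} (hn0 : n ≠ 0) (hn : 2 ∣ n) :
    C2 * ((n : ℝ) / Nat.totient n) ≤ SHL n ∧ SHL n ≤ (n : ℝ) / Nat.totient n := by
  rw [← kk_prod hn0]
  set S := n.primeFactors.filter (fun p => 2 < p) with hS
  have hS3 : ∀ p ∈ S, p.Prime ∧ 3 ≤ p ∧ p ∣ n := by
    intro p hp
    rw [hS, mem_filter, Nat.mem_primeFactors] at hp
    exact ⟨hp.1.1, hp.2, hp.1.2.1⟩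
  have h1 : n.primeFactors = insert 2 S := by
    ext p
    rw [mem_insert, hS, mem_filter, Nat.mem_primeFactors]
    constructor
    · rintro ⟨g1, g2, g3⟩
      rcases g1.two_le.eq_or_lt with h | h
      · exact Or.inl h.symm
      · exact Or.inr ⟨⟨g1, g2, g3⟩, h⟩
    · rintro (h | ⟨h, -⟩)
      · rw [h]
        exact ⟨Nat.prime_two, hn, hn0⟩
      · exact h
  have h2 : (2 : ℕ) ∉ S := fun h => by have := (hS3 2 h).2.1; omega
  have h3 : ∏ p ∈ n.primeFactors, kk p = 2 * ((∏ p ∈ S, gg p) * ∏ p ∈ S, hh p) := by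
    rw [h1, prod_insert h2, ← prod_mul_distrib]
    congr 1
    · unfold kk
      norm_num
    · exact prod_congr rfl fun p hp => kk_eq (hS3 p hp).2.1
  have h4 : 0 ≤ ∏ p ∈ S, hh p := prod_nonneg fun p hp => zero_le_one.trans (hh_ge (hS3 p hp).2.1)
  have h5 : ∏ p ∈ S, gg p ≤ 1 :=
    prod_le_one (fun p hp => (gg_pos (hS3 p hp).2.1).le) fun p _ => gg_le
  have h6 : C2 ≤ ∏ p ∈ S, gg p := by
    have hsub : S ⊆ Pt n := by
      intro p hp
      obtain ⟨g1, g2, g3⟩ := hS3 p hp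
      rw [mem_Pt]
      exact ⟨g1, g2, Nat.le_of_dvd (Nat.pos_of_ne_zero hn0) g3⟩
    refine (C2_le n).trans ?_
    unfold cc
    rw [← prod_sdiff hsub]
    have h7 : ∏ p ∈ Pt n \ S, gg p ≤ 1 := by
      apply prod_le_one
      · intro p hp
        rw [Finset.mem_sdiff, mem_Pt] at hp
        exact (gg_pos hp.1.2.1).le
      · intro p _
        exact gg_le
    have h8 : 0 ≤ ∏ p ∈ S, gg p := prod_nonneg fun p hp => (gg_pos (hS3 p hp).2.1).le
    nlinarith
  have h7 : SHL n = 2 * C2 * ∏ p ∈ S, hh p := rfl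
  have hC := C2_low
  rw [h3, h7]
  obtain ⟨g, hg⟩ : ∃ g, g = ∏ p ∈ S, gg p := ⟨_, rfl⟩
  obtain ⟨k, hk⟩ : ∃ k, k = ∏ p ∈ S, hh p := ⟨_, rfl⟩
  rw [← hg] at h5 h6
  rw [← hk] at h4
  rw [← hg, ← hk]
  constructor
  · have : C2 * (g * k) ≤ C2 * (1 * k) := by gcongr
    linarith
  · have : C2 * k ≤ g * k := by gcongr
    linarith

/-- the conjectured order of magnitude -/
noncomputable def Gn (n : ℕ) : ℝ := (n : ℝ) ^ 2 / (Nat.totient n * (Real.log n) ^ 2)

theorem Gn_bound {m : ℕ} (hm : 1 ≤ m) :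
    0 < Gn (2 * m) ∧ HLp (2 * m) ≤ Gn (2 * m) ∧ 1 / 2 * Gn (2 * m) ≤ HLp (2 * m) := by
  have h1 := SHL_phi (n := 2 * m) (by omega) ⟨m, rfl⟩
  have hb : 0 < ((2 * m : ℕ) : ℝ) / (Real.log (2 * m : ℕ)) ^ 2 := by
    have h1 : (0 : ℝ) < (2 * m : ℕ) := by exact_mod_cast (by omega : 0 < 2 * m)
    have h2 : 0 < Real.log (2 * m : ℕ) := by
      apply Real.log_pos
      exact_mod_cast (by omega : 1 < 2 * m)
    positivity
  have e1 : Gn (2 * m) = ((2 * m : ℕ) : ℝ) / Nat.totient (2 * m) *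
      (((2 * m : ℕ) : ℝ) / (Real.log (2 * m : ℕ)) ^ 2) := by
    unfold Gn
    rw [div_mul_div_comm, sq]
  have e2 : HLp (2 * m) = SHL (2 * m) * (((2 * m : ℕ) : ℝ) / (Real.log (2 * m : ℕ)) ^ 2) := by
    unfold HLp
    rw [mul_div_assoc]
  have hC := C2_low
  have h2 : 0 < ((2 * m : ℕ) : ℝ) / Nat.totient (2 * m) := by
    have h3 : (0 : ℝ) < (2 * m : ℕ) := by exact_mod_cast (by omega : 0 < 2 * m)
    have h4 : (0 : ℝ) < Nat.totient (2 * m) := by
      exact_mod_cast Nat.totient_pos.2 (by omega)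
    positivity
  rw [e1, e2]
  refine ⟨mul_pos h2 hb, mul_le_mul_of_nonneg_right h1.2 hb.le, ?_⟩
  rw [← mul_assoc]
  apply mul_le_mul_of_nonneg_right _ hb.le
  refine le_trans ?_ h1.1
  exact mul_le_mul_of_nonneg_right hC h2.le

/-- the order of magnitude -/
theorem order (T : ℕ → ℕ) (hT : Monotone T)
    (hTs : ∀ ε : ℝ, 0 < ε → ∀ᶠ n : ℕ in atTop, (T n : ℝ) ≤ (n : ℝ) ^ ε) (hTi : Tendsto T atTop atTop)
    {E : ℕ → Set Ω} (hE : Sieved μ E T) : ∀ᵐ ω ∂μ,
      (∀ᶠ m : ℕ in atTop, (rp {n | ω ∈ E n} (2 * m) : ℝ) ≤ 2 * Gn (2 * m)) ∧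
      ((∃ c : ℝ, 0 < c ∧ ∀ᶠ m : ℕ in atTop, c * Gn (2 * m) ≤ (rp {n | ω ∈ E n} (2 * m) : ℝ)) ↔
        ∃ δ : ℝ, 0 < δ ∧ ∀ᶠ n : ℕ in atTop, (Real.log n) ^ δ ≤ T n) := by
  -- the depth
  have hg : ∀ᶠ n : ℕ in atTop, 0 ≤ min 1 (Real.log (T n) / Real.log (Real.log n)) ∧
      min 1 (Real.log (T n) / Real.log (Real.log n)) ≤ 1 := by
    filter_upwards [tloglog.eventually_gt_atTop 0] with n g1
    refine ⟨le_min zero_le_one (div_nonneg (Real.log_natCast_nonneg _) g1.le), min_le_left _ _⟩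
  obtain ⟨d1, d2, d3, d4⟩ := of_liminf _ hg
  have hdd : liminf (fun n : ℕ => min 1 (Real.log (T n) / Real.log (Real.log n))) atTop = depth T := rfl
  rw [hdd] at d3 d4
  simp only [hdd] at d1 d2
  obtain ⟨κ, hκ⟩ : ∃ κ, κ = depth T := ⟨_, rfl⟩
  rw [← hκ] at d1 d2 d3 d4
  have hpos := pos T hT hTs hTi hE κ d4 (fun ε hε => by
    filter_upwards [d1 ε hε, tloglog.eventually_gt_atTop 0] with n h1 h2
    have h3 := h1.trans (min_le_right _ _)
    rwa [le_div_iff₀ h2] at h3)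
  have hup := upper T hT hTs hTi hE
  have hfr : ∀ ε : ℝ, 0 < ε → ∃ᶠ m : ℕ in atTop, Mh μ E m ≤ κ + ε := by
    intro ε hε
    rcases eq_or_lt_of_le d4 with h | h
    · rw [h]
      exact (hup ε hε).frequently
    · obtain ⟨η, hη⟩ : ∃ η, η = min (ε / 2) (min ((1 - κ) / 2) 1) := ⟨_, rfl⟩
      have hη0 : 0 < η := by
        rw [hη]
        apply lt_min (by linarith) (lt_min (by linarith) one_pos)
      have hη1 : η ≤ 1 := by rw [hη]; exact (min_le_right _ _).trans (min_le_right _ _)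
      have hη2 : η ≤ (1 - κ) / 2 := by rw [hη]; exact (min_le_right _ _).trans (min_le_left _ _)
      have hη3 : η ≤ ε / 2 := by rw [hη]; exact min_le_left _ _
      have h1 := neg T hT hTs hTi hE (κ + η) (by linarith) (by linarith) (by
        apply ((d2 η hη0).and_eventually (tloglog.eventually_gt_atTop 0)).mono
        rintro n ⟨h2, h3⟩
        rcases min_le_iff.1 h2 with h4 | h4
        · linarith
        · rwa [div_le_iff₀ h3] at h4) η hη0 hη1
      exact h1.mono (fun m h2 => by linarith)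
  have hconc := conc hE.meas hE.indep (low_sqrt T hT hTs hTi hE)
  filter_upwards [hconc] with ω hω
  have hcl := close hω ((hup 1 one_pos).mono (fun m h => by linarith))
  obtain ⟨R, hR⟩ : ∃ R : ℕ → ℝ, R = fun m : ℕ => (rp {n | ω ∈ E n} (2 * m) : ℝ) / HLp (2 * m) := ⟨_, rfl⟩
  have hcl' : ∀ ε : ℝ, 0 < ε → ∀ᶠ m : ℕ in atTop, |R m - Mh μ E m| ≤ ε := by
    intro ε hε
    rw [hR]
    exact hcl ε hε
  have r1 : ∀ ε : ℝ, 0 < ε → ∀ᶠ m : ℕ in atTop, κ - ε ≤ R m := by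
    intro ε hε
    filter_upwards [hcl' (ε / 2) (by linarith), hpos (ε / 2) (by linarith)] with m h1 h2
    have := (abs_le.1 h1).1
    linarith
  have r2 : ∀ ε : ℝ, 0 < ε → ∃ᶠ m : ℕ in atTop, R m ≤ κ + ε := by
    intro ε hε
    apply ((hfr (ε / 2) (by linarith)).and_eventually (hcl' (ε / 2) (by linarith))).mono
    rintro m ⟨h1, h2⟩
    have := (abs_le.1 h2).2
    linarith
  have r3 : ∀ᶠ m : ℕ in atTop, R m ≤ 2 := by
    filter_upwards [hcl' (1 / 2) (by norm_num), hup (1 / 2) (by norm_num)] with m h1 h2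
    have := (abs_le.1 h1).2
    linarith
  have hRr : ∀ m : ℕ, 1 ≤ m → (rp {n | ω ∈ E n} (2 * m) : ℝ) = R m * HLp (2 * m) ∧ 0 < HLp (2 * m) := by
    intro m hm
    have h0 : 0 < HLp (2 * m) := by
      rw [HLp_eq]
      linarith [hHL_pos hm]
    refine ⟨?_, h0⟩
    rw [hR]
    simp only
    rw [div_mul_cancel₀ _ h0.ne']
  refine ⟨?_, ?_, ?_⟩
  · filter_upwards [r3, eventually_ge_atTop 1] with m h1 h2
    obtain ⟨h3, h4⟩ := hRr m h2
    obtain ⟨h5, h6, h7⟩ := Gn_bound h2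
    rw [h3]
    nlinarith
  · rintro ⟨c, hc, h⟩
    have hκ0 : 0 < κ := by
      obtain ⟨m, h1, h2, h3⟩ := ((r2 (c / 2) (by positivity)).and_eventually
        (h.and (eventually_ge_atTop 1))).exists
      obtain ⟨h4, h5⟩ := hRr m h3
      obtain ⟨h6, h7, h8⟩ := Gn_bound h3
      rw [h4] at h2
      have h9 : c * HLp (2 * m) ≤ R m * HLp (2 * m) := by nlinarith
      have := le_of_mul_le_mul_right h9 h5
      linarith
    refine ⟨κ / 2, by positivity, ?_⟩
    filter_upwards [d1 (κ / 2) (by positivity), tloglog.eventually_gt_atTop 0,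
      tlog.eventually_gt_atTop 0, hTi.eventually_ge_atTop 1] with n h2 h3 h4 h5
    have h6 := h2.trans (min_le_right _ _)
    rw [le_div_iff₀ h3] at h6
    have h7 : (0 : ℝ) < T n := by exact_mod_cast h5
    rw [Real.rpow_def_of_pos h4, mul_comm, ← Real.exp_log h7]
    apply Real.exp_le_exp.2
    have e : κ - κ / 2 = κ / 2 := by ring
    rwa [e] at h6
  · rintro ⟨δ, hδ, h⟩
    have hκ0 : min 1 δ ≤ κ := by
      apply le_of_forall_pos_le_add
      intro ε hε
      obtain ⟨n, h2, h3, h4, h5, h6⟩ := ((d2 ε hε).and_eventually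
        (h.and ((tloglog.eventually_gt_atTop 0).and
          ((tlog.eventually_gt_atTop 0).and (hTi.eventually_ge_atTop 1))))).exists
      have h7 : (0 : ℝ) < T n := by exact_mod_cast h6
      have h8 := Real.log_le_log (Real.rpow_pos_of_pos h5 _) h3
      rw [Real.log_rpow h5] at h8
      refine le_trans (min_le_min le_rfl ?_) h2
      rwa [le_div_iff₀ h4]
    have hκ1 : 0 < κ := lt_of_lt_of_le (lt_min one_pos hδ) hκ0
    refine ⟨κ / 4, by positivity, ?_⟩
    filter_upwards [r1 (κ / 2) (by positivity), eventually_ge_atTop 1] with m h1 h2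
    obtain ⟨h4, h5⟩ := hRr m h2
    obtain ⟨h6, h7, h8⟩ := Gn_bound h2
    rw [h4]
    have h9 : κ / 2 * HLp (2 * m) ≤ R m * HLp (2 * m) := by
      apply mul_le_mul_of_nonneg_right _ h5.le
      linarith
    nlinarith

end Pool.Agent.U827.GM
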