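import Mathlib
import Pool.Agent.U839.Gb.Fin
import Pool.Agent.U827.GM.Ord

/-! Even integers with extremal numbers of representations, relative to `n ^ 2 / (φ(n) log ^ 2 n)`, in sieved
random models (`neg2` follows `U839.Gb.neg` of helper839). -/

set_option autoImplicit false

namespace Pool.Agent.U827.GM

open MeasureTheory ProbabilityTheory Filter Finset Topology
open Pool.Agent.U839.Sv (Sieved Pr mem_Pr W W_eq W_pos)
open Pool.Agent.U839.Gb
open Pool.Agent.U839.Thin (tlog)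
open Pool.Agent.U839.Fb (tloglog)
open Pool.Agent.U839.Cc (W_asymp)

variable {Ω : Type*} [MeasurableSpace Ω] {μ : Measure Ω} [IsProbabilityMeasure μ]

/-- the odd prime factors -/
theorem SHL_gg {n : ℕ} (hn0 : n ≠ 0) (hn : 2 ∣ n) :
    SHL n * ∏ p ∈ n.primeFactors.filter (fun p => 2 < p), gg p = C2 * ((n : ℝ) / Nat.totient n) := by
  rw [← kk_prod hn0]
  set S := n.primeFactors.filter (fun p => 2 < p) with hS
  have hS3 : ∀ p ∈ S, p.Prime ∧ 3 ≤ p ∧ p ∣ n := by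
    intro p hp
    rw [hS, mem_filter, Nat.mem_primeFactors] at hp
    exact ⟨hp.1.1, hp.2, hp.1.2.1⟩
  have h1 : n.primeFactors = insert 2 S := by
    ext p
    rw [mem_insert, hS, mem_filter, Nat.mem_primeFactors]
    constructor
    · rintro ⟨g1, g2, g3⟩
      rcases g1.two_le.eq_or_lt with h | h
      · exact Or.inl h.symm
      · exact Or.inr ⟨⟨g1, g2, g3⟩, h⟩
    · rintro (h | ⟨h, -⟩)
      · rw [h]
        exact ⟨Nat.prime_two, hn, hn0⟩
      · exact h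
  have h2 : (2 : ℕ) ∉ S := fun h => by have := (hS3 2 h).2.1; omega
  have h3 : ∏ p ∈ n.primeFactors, kk p = 2 * ((∏ p ∈ S, gg p) * ∏ p ∈ S, hh p) := by
    rw [h1, prod_insert h2, ← prod_mul_distrib]
    congr 1
    · unfold kk
      norm_num
    · exact prod_congr rfl fun p hp => kk_eq (hS3 p hp).2.1
  have h7 : SHL n = 2 * C2 * ∏ p ∈ S, hh p := rfl
  rw [h3, h7]
  ring

/-- the product of the odd primes in `(y, z]` -/
def QQ (y z : ℕ) : ℕ := ∏ p ∈ Pt z \ Pt y, p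

theorem mem_QQ {y z p : ℕ} : p ∈ Pt z \ Pt y ↔ p.Prime ∧ 3 ≤ p ∧ y < p ∧ p ≤ z := by
  rw [Finset.mem_sdiff, mem_Pt, mem_Pt]
  constructor
  · rintro ⟨⟨h1, h2, h3⟩, h4⟩
    refine ⟨h1, h2, ?_, h3⟩
    by_contra hcon
    exact h4 ⟨h1, h2, by omega⟩
  · rintro ⟨h1, h2, h3, h4⟩
    exact ⟨⟨h1, h2, h4⟩, fun h => by omega⟩

theorem QQ_pos (y z : ℕ) : 0 < QQ y z := by
  unfold QQ
  exact prod_pos fun p hp => (mem_QQ.1 hp).1.pos

theorem QQ_le (y z : ℕ) : QQ y z ≤ primorial z := by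
  apply Nat.le_of_dvd (primorial_pos z)
  unfold QQ primorial
  apply Finset.prod_dvd_prod_of_subset
  intro p hp
  rw [mem_QQ] at hp
  rw [mem_filter, mem_range]
  exact ⟨by omega, hp.1⟩

/-- the integer -/
def nn (y z k : ℕ) : ℕ := 2 ^ k * QQ y z

theorem dvd_nn {y z k p : ℕ} (hp : p.Prime) (h3 : 3 ≤ p) : p ∣ 2 * nn y z k ↔ y < p ∧ p ≤ z := by
  have h2 : ¬ p ∣ 2 := fun h => by
    have := Nat.le_of_dvd (by norm_num) h
    omega
  unfold nn
  rw [hp.dvd_mul, hp.dvd_mul]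
  constructor
  · rintro (h | h | h)
    · exact absurd h h2
    · exact absurd (hp.dvd_of_dvd_pow h) h2
    · unfold QQ at h
      obtain ⟨q, hq, hpq⟩ := (hp.prime.dvd_finsetProd_iff _).1 h
      rw [mem_QQ] at hq
      have := (Nat.prime_dvd_prime_iff_eq hp hq.1).1 hpq
      rw [this]
      exact ⟨hq.2.2.1, hq.2.2.2⟩
  · rintro ⟨h, h'⟩
    right
    right
    exact Finset.dvd_prod_of_mem _ (mem_QQ.2 ⟨hp, h3, h, h'⟩)

theorem nn_pos (y z k : ℕ) : 0 < nn y z k := Nat.mul_pos (by positivity) (QQ_pos y z)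

theorem pf_nn (y z k : ℕ) : (2 * nn y z k).primeFactors.filter (fun p => 2 < p) = Pt z \ Pt y := by
  have h0 := nn_pos y z k
  ext p
  rw [mem_filter, Nat.mem_primeFactors, mem_QQ]
  constructor
  · rintro ⟨⟨h1, h2, -⟩, h3⟩
    exact ⟨h1, h3, (dvd_nn h1 h3).1 h2⟩
  · rintro ⟨h1, h2, h3⟩
    exact ⟨⟨h1, (dvd_nn h1 h2).2 h3, by omega⟩, h2⟩

theorem gg_sdiff {y z : ℕ} (hyz : y ≤ z) : cc z = cc y * ∏ p ∈ Pt z \ Pt y, gg p := by
  have hsub : Pt y ⊆ Pt z := by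
    intro p hp
    rw [mem_Pt] at hp ⊢
    exact ⟨hp.1, hp.2.1, by omega⟩
  unfold cc
  rw [← prod_sdiff hsub, mul_comm]

/-- few small prime factors -/
theorem SHL_nn_up {y z k : ℕ} (η : ℝ) (hη : 0 ≤ η) (hyz : y ≤ z) (hy : cc y ≤ (1 + η) * C2) :
    SHL (2 * nn y z k) ≤ (1 + η) * (C2 * (((2 * nn y z k : ℕ) : ℝ) / Nat.totient (2 * nn y z k))) := by
  have h0 := nn_pos y z k
  have h1 := SHL_gg (n := 2 * nn y z k) (by omega) ⟨_, rfl⟩
  rw [pf_nn] at h1
  have h2 := gg_sdiff hyz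
  have hC := C2_low
  have h3 := C2_le z
  obtain ⟨g, hg⟩ : ∃ g, g = ∏ p ∈ Pt z \ Pt y, gg p := ⟨_, rfl⟩
  have hg0 : 0 ≤ g := by
    rw [hg]
    exact prod_nonneg fun p hp => (gg_pos (mem_QQ.1 hp).2.1).le
  rw [← hg] at h1 h2
  have h4 : C2 ≤ (1 + η) * C2 * g := by
    have : cc y * g ≤ (1 + η) * C2 * g := by gcongr
    linarith
  have h5 : C2 * 1 ≤ C2 * ((1 + η) * g) := by linarith
  have h6 : 1 ≤ (1 + η) * g := le_of_mul_le_mul_left h5 (by linarith)
  have hs := SHL_one (2 * nn y z k)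
  rw [← h1]
  nlinarith

/-- all small prime factors -/
theorem SHL_nn_low {z k : ℕ} (η : ℝ) (hη : 0 ≤ η) (hz : cc z ≤ (1 + η) * C2) :
    ((2 * nn 0 z k : ℕ) : ℝ) / Nat.totient (2 * nn 0 z k) ≤ (1 + η) * SHL (2 * nn 0 z k) := by
  have h0 := nn_pos 0 z k
  have h1 := SHL_gg (n := 2 * nn 0 z k) (by omega) ⟨_, rfl⟩
  rw [pf_nn] at h1
  have h2 := gg_sdiff (Nat.zero_le z)
  have h3 : cc 0 = 1 := by
    unfold cc Pt
    simp
  rw [h3, one_mul] at h2
  rw [← h2] at h1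
  have hC := C2_low
  have hs := SHL_one (2 * nn 0 z k)
  have h4 : SHL (2 * nn 0 z k) * cc z ≤ SHL (2 * nn 0 z k) * ((1 + η) * C2) := by gcongr
  rw [h1] at h4
  have h5 : C2 * (((2 * nn 0 z k : ℕ) : ℝ) / Nat.totient (2 * nn 0 z k)) ≤
      C2 * ((1 + η) * SHL (2 * nn 0 z k)) := by linarith
  exact le_of_mul_le_mul_left h5 (by linarith)

/-- many representations -/
theorem many (T : ℕ → ℕ) (hT : Monotone T)
    (hTs : ∀ ε : ℝ, 0 < ε → ∀ᶠ n : ℕ in atTop, (T n : ℝ) ≤ (n : ℝ) ^ ε) (hTi : Tendsto T atTop atTop)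
    {E : ℕ → Set Ω} (hE : Sieved μ E T) (ε : ℝ) (hε : 0 < ε) : ∃ᶠ m : ℕ in atTop,
      1 - ε ≤ Mh μ E m ∧ ((2 * m : ℕ) : ℝ) / Nat.totient (2 * m) ≤ (1 + ε) * SHL (2 * m) := by
  have hC := C2_low
  obtain ⟨z, hz, hz2⟩ : ∃ z, cc z ≤ (1 + ε) * C2 ∧ 2 ≤ z := by
    have := cc_lim.eventually (gt_mem_nhds (show C2 < (1 + ε) * C2 by nlinarith))
    obtain ⟨z, h1, h2⟩ := (this.and (eventually_ge_atTop 2)).exists
    exact ⟨z, h1.le, h2⟩
  obtain ⟨a₀, ha₀⟩ := eventually_atTop.1 (hTi.eventually_ge_atTop z)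
  obtain ⟨m₀, hm₀⟩ := eventually_atTop.1 ((Mh_low T hT hTs hE ε hε).and (eventually_ge_atTop (a₀ ^ 2 + 1)))
  rw [frequently_atTop]
  intro M
  obtain ⟨k, hk⟩ : ∃ k, k = max M m₀ := ⟨_, rfl⟩
  have hkm : k ≤ nn 0 z k := by
    have h1 : k ≤ 2 ^ k := Nat.lt_two_pow_self.le
    have h2 : 2 ^ k * 1 ≤ 2 ^ k * QQ 0 z := Nat.mul_le_mul_left _ (QQ_pos 0 z)
    unfold nn
    omega
  have hM : M ≤ k := by rw [hk]; exact le_max_left _ _
  have hm : m₀ ≤ k := by rw [hk]; exact le_max_right _ _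
  refine ⟨nn 0 z k, hM.trans hkm, ?_, SHL_nn_low ε hε.le hz⟩
  obtain ⟨g1, g2⟩ := hm₀ _ (hm.trans hkm)
  refine g1 1 (by norm_num) (by norm_num) fun a ha _ => ?_
  have h2 : a₀ ≤ a := by
    by_contra hcon
    push Not at hcon
    have : a ^ 2 ≤ a₀ ^ 2 := Nat.pow_le_pow_left hcon.le 2
    omega
  have h3 := ha₀ a h2
  have h4 := Ss_down (n := 2 * nn 0 z k) (t := T a) (by have := nn_pos 0 z k; omega) ⟨_, rfl⟩ (by omega)
  have h5 : BB (2 * nn 0 z k) (T a) = 1 := by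
    unfold BB
    have : (2 * nn 0 z k).primeFactors.filter (fun p => T a < p) = ∅ := by
      rw [filter_eq_empty_iff]
      intro p hp
      rw [Nat.mem_primeFactors] at hp
      rw [not_lt]
      rcases Nat.lt_or_ge p 3 with h | h
      · omega
      · have := ((dvd_nn hp.1 h).1 hp.2.1).2
        omega
    rw [this, prod_empty]
  rw [h5] at h4
  linarith

/-- the comparison of the series -/
theorem Ss_nn {y z k t : ℕ} (η : ℝ) (hyt : y ≤ t) (ht2 : 2 ≤ t) (htz : t ≤ z)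
    (hcc : cc t ≤ (1 + η) * C2) :
    Ss (2 * nn y z k) t * W z ≤ (1 + η) * W t * SHL (2 * nn y z k) := by
  have h0 := nn_pos y z k
  rw [Ss_eq ⟨_, rfl⟩ ht2, SHL_split (n := 2 * nn y z k) (t := t) (by omega) ht2]
  have hA : 0 ≤ ∏ p ∈ (Pt t).filter (fun p => p ∣ 2 * nn y z k), hh p := prod_nonneg fun p hp => by
    rw [mem_filter, mem_Pt] at hp
    exact zero_le_one.trans (hh_ge hp.1.2.1)
  have hset : Pr z \ Pr t = (2 * nn y z k).primeFactors.filter (fun p => t < p) := by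
    ext p
    rw [Finset.mem_sdiff, mem_Pr, mem_Pr, mem_filter, Nat.mem_primeFactors]
    constructor
    · rintro ⟨⟨h1, h2⟩, h3⟩
      have h4 : t < p := by
        by_contra hcon
        exact h3 ⟨h1, by omega⟩
      exact ⟨⟨h1, (dvd_nn h1 (by omega)).2 ⟨by omega, h2⟩, by omega⟩, h4⟩
    · rintro ⟨⟨h1, h2, -⟩, h3⟩
      have := (dvd_nn h1 (by omega)).1 h2
      exact ⟨⟨h1, this.2⟩, fun h => by omega⟩
  have hB : W z ≤ W t * ∏ p ∈ (2 * nn y z k).primeFactors.filter (fun p => t < p), hh p := by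
    have hsub : Pr t ⊆ Pr z := by
      intro p hp
      rw [mem_Pr] at hp ⊢
      exact ⟨hp.1, hp.2.trans htz⟩
    rw [W_eq z, ← prod_sdiff hsub, ← W_eq t, mul_comm, hset]
    apply mul_le_mul_of_nonneg_left _ (W_pos t).le
    apply Finset.prod_le_prod
    · intro p hp
      rw [mem_filter, Nat.mem_primeFactors] at hp
      exact zero_le_one.trans (kk_ge hp.1.1.two_le)
    · intro p hp
      rw [mem_filter] at hp
      have h3 : 3 ≤ p := by omega
      have h4 : kk p = gg p * hh p := kk_eq h3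
      have h5 : gg p * hh p ≤ 1 * hh p :=
        mul_le_mul_of_nonneg_right gg_le (zero_le_one.trans (hh_ge h3))
      have h6 : kk p ≤ hh p := by linarith
      exact h6
  obtain ⟨A, hA'⟩ : ∃ A, A = ∏ p ∈ (Pt t).filter (fun p => p ∣ 2 * nn y z k), hh p := ⟨_, rfl⟩
  obtain ⟨B, hB'⟩ : ∃ B, B = ∏ p ∈ (2 * nn y z k).primeFactors.filter (fun p => t < p), hh p := ⟨_, rfl⟩
  rw [← hA'] at hA
  rw [← hB'] at hB
  rw [← hA', ← hB']
  have hc := cc_low t
  have hW := W_pos t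
  have hWz := W_pos z
  calc 2 * cc t * A * W z ≤ 2 * ((1 + η) * C2) * A * W z := by gcongr
    _ ≤ 2 * ((1 + η) * C2) * A * (W t * B) := by
        apply mul_le_mul_of_nonneg_left hB
        apply mul_nonneg _ hA
        linarith
    _ = (1 + η) * W t * (2 * C2 * (A * B)) := by ring

/-- few representations -/
theorem few (T : ℕ → ℕ) (hT : Monotone T)
    (hTs : ∀ ε : ℝ, 0 < ε → ∀ᶠ n : ℕ in atTop, (T n : ℝ) ≤ (n : ℝ) ^ ε) (hTi : Tendsto T atTop atTop)
    {E : ℕ → Set Ω} (hE : Sieved μ E T) (κ : ℝ) (hκ : 0 ≤ κ) (hκ1 : κ < 1)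
    (hfr : ∃ᶠ N : ℕ in atTop, Real.log (T N) ≤ κ * Real.log (Real.log N)) (ε : ℝ) (hε : 0 < ε) (hε1 : ε ≤ 1) :
    ∃ᶠ m : ℕ in atTop, Mh μ E m ≤ κ + ε ∧
      SHL (2 * m) ≤ (1 + ε) * (C2 * (((2 * m : ℕ) : ℝ) / Nat.totient (2 * m))) := by
  obtain ⟨δ, hδ, H⟩ := Mh_up T hT hTs hTi hE (ε / 2) (by positivity)
  obtain ⟨η, hη⟩ : ∃ η, η = min (ε / 20) (1 / 4) := ⟨_, rfl⟩
  have hη0 : 0 < η := by rw [hη]; positivity
  have hη1 : η ≤ 1 / 4 := by rw [hη]; exact min_le_right _ _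
  have hηε : η ≤ ε / 20 := by rw [hη]; exact min_le_left _ _
  have hC := C2_low
  obtain ⟨y, hy⟩ : ∃ y, ∀ t, y ≤ t → cc t ≤ (1 + η) * C2 ∧ 2 ≤ t := by
    have := cc_lim.eventually (gt_mem_nhds (show C2 < (1 + η) * C2 by nlinarith))
    obtain ⟨y, hy⟩ := eventually_atTop.1 (this.and (eventually_ge_atTop 2))
    exact ⟨y, fun t ht => ⟨(hy t ht).1.le, (hy t ht).2⟩⟩
  obtain ⟨a₀, ha₀⟩ := eventually_atTop.1 (hTi.eventually_ge_atTop y)
  obtain ⟨m₀, hm₀⟩ := eventually_atTop.1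
    (H.and (tendsto_natCast_atTop_atTop.eventually_ge_atTop ((a₀ : ℝ) / δ)))
  have hz : Tendsto (fun N : ℕ => ⌊Real.log N / 2⌋₊) atTop atTop :=
    tendsto_nat_floor_atTop.comp (tlog.atTop_div_const (by norm_num))
  have hpow : ∀ᶠ N : ℕ in atTop, (Real.log N) ^ κ ≤ Real.log N / 2 - 1 := by
    have h1 : Tendsto (fun x : ℝ => x ^ (1 - κ)) atTop atTop := tendsto_rpow_atTop (by linarith)
    filter_upwards [(h1.comp tlog).eventually_ge_atTop 4, tlog.eventually_ge_atTop 4] with N g1 g2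
    simp only [Function.comp] at g1
    obtain ⟨L, hL⟩ : ∃ L, L = Real.log N := ⟨_, rfl⟩
    rw [← hL] at g1 g2 ⊢
    have hL0 : 0 < L := by linarith
    have h2 : L ^ (1 - κ) * L ^ κ = L := by
      rw [← Real.rpow_add hL0]
      norm_num
    have h3 : 0 ≤ L ^ κ := by positivity
    nlinarith
  have ev : ∀ᶠ N : ℕ in atTop, Real.log (T N) ≤ κ * Real.log (Real.log N) →
      ∃ m, N ≤ 4 * m ∧ (m₀ ≤ m → Mh μ E m ≤ κ + ε ∧
        SHL (2 * m) ≤ (1 + ε) * (C2 * (((2 * m : ℕ) : ℝ) / Nat.totient (2 * m)))) := by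
    filter_upwards [prim_small, hz.eventually ((eventually_ge_atTop y).and (W_asymp η hη0)),
      hTi.eventually ((W_asymp η hη0).and (eventually_ge_atTop 1)), hpow, tlog.eventually_ge_atTop 8,
      tloglog.eventually_ge_atTop (Real.log 4 / η), eventually_ge_atTop 1] with N g1 g2 g3 g4 g5 g6 g7 g8
    obtain ⟨z, hz'⟩ : ∃ z, z = ⌊Real.log N / 2⌋₊ := ⟨_, rfl⟩
    rw [← hz'] at g1
    rw [← hz'] at g2
    obtain ⟨k2, k3⟩ := g2
    obtain ⟨l1, l2⟩ := g3
    obtain ⟨q, hq⟩ : ∃ q, q = N / (2 * QQ y z) := ⟨_, rfl⟩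
    obtain ⟨k, hk⟩ : ∃ k, k = Nat.log 2 q := ⟨_, rfl⟩
    have hQ := QQ_pos y z
    have hQN : 2 * QQ y z ≤ N := (Nat.mul_le_mul_left 2 (QQ_le y z)).trans g1
    have hq1 : 1 ≤ q := by
      rw [hq]
      exact (Nat.one_le_div_iff (by omega)).2 hQN
    have hq2 : 2 ^ k ≤ q := by
      rw [hk]
      exact Nat.pow_log_le_self 2 (by omega)
    have hq3 : q < 2 ^ (k + 1) := by
      rw [hk]
      exact Nat.lt_pow_succ_log_self (by norm_num) q
    have h1 : 2 * nn y z k ≤ N := by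
      have h2 : 2 * QQ y z * q ≤ N := by
        rw [hq]
        exact Nat.mul_div_le _ _
      have h3 : 2 * nn y z k = 2 * QQ y z * 2 ^ k := by
        unfold nn
        ring
      rw [h3]
      exact (Nat.mul_le_mul_left _ hq2).trans h2
    have h2 : N ≤ 4 * nn y z k := by
      have h2 : N < 2 * QQ y z * (q + 1) := by
        rw [hq]
        exact Nat.lt_mul_div_succ N (by omega)
      have h3 : 4 * nn y z k = 2 * QQ y z * 2 ^ (k + 1) := by
        unfold nn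
        ring
      rw [h3]
      exact h2.le.trans (Nat.mul_le_mul_left _ hq3)
    refine ⟨nn y z k, h2, fun hm => ⟨?_, ?_⟩⟩
    swap
    · have h3 := SHL_nn_up (y := y) (z := z) (k := k) η hη0.le k2 (hy y le_rfl).1
      refine h3.trans ?_
      apply mul_le_mul_of_nonneg_right (by linarith)
      positivity
    obtain ⟨m, hm'⟩ : ∃ m, m = nn y z k := ⟨_, rfl⟩
    have hSs : ∀ t, y ≤ t → t ≤ z → Ss (2 * m) t * W z ≤ (1 + η) * W t * SHL (2 * m) := by
      intro t h3 h4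
      rw [hm']
      exact Ss_nn η h3 (hy t h3).2 h4 (hy t h3).1
    rw [← hm'] at hm h1 h2 ⊢
    obtain ⟨L, hL⟩ : ∃ L, L = Real.log N := ⟨_, rfl⟩
    rw [← hL] at g4 g5 g6 g8 hz'
    obtain ⟨ℓ, hℓ⟩ : ∃ ℓ, ℓ = Real.log L := ⟨_, rfl⟩
    rw [← hℓ] at g6 g8
    have hL0 : 0 < L := by linarith
    have hz1 : L / 2 - 1 ≤ z := by
      have := Nat.lt_floor_add_one (L / 2)
      rw [← hz'] at this
      linarith
    have hTz : T N ≤ z := by
      have h4 : (T N : ℝ) ≤ L ^ κ := by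
        have h5 : (0 : ℝ) < T N := by exact_mod_cast l2
        rw [Real.rpow_def_of_pos hL0, ← hℓ, mul_comm, ← Real.exp_log h5]
        exact Real.exp_le_exp.2 g8
      have h5 : (T N : ℝ) ≤ z := by linarith
      exact_mod_cast h5
    have hlogz : (1 - η) * ℓ ≤ Real.log z := by
      have h4 : L / 4 ≤ z := by linarith
      have h5 := Real.log_le_log (by linarith) h4
      rw [Real.log_div (by linarith) (by norm_num), ← hℓ] at h5
      rw [div_le_iff₀ hη0] at g6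
      linarith
    have he := Real.exp_pos Real.eulerMascheroniConstant
    obtain ⟨e, he'⟩ : ∃ e, e = Real.exp Real.eulerMascheroniConstant := ⟨_, rfl⟩
    rw [← he'] at he k3 l1
    have hℓ0 : 0 ≤ ℓ := by
      rw [hℓ]
      exact Real.log_nonneg (by linarith)
    have hWz := W_pos z
    have hW : (1 + η) * W (T N) ≤ (κ + ε / 2) * W z := by
      have h4 : W (T N) ≤ (1 + η) * e * (κ * ℓ) := by
        refine l1.2.trans ?_
        gcongr
      have h5 : (1 - η) * e * ((1 - η) * ℓ) ≤ W z := by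
        refine le_trans ?_ k3.1
        apply mul_le_mul_of_nonneg_left hlogz
        apply mul_nonneg _ he.le
        linarith
      have h7 : (1 + η) ^ 2 * κ ≤ (κ + ε / 2) * (1 - η) ^ 2 := by
        have k4 : (1 + η) ^ 2 ≤ 1 + 3 * η := by nlinarith
        have k5 : 1 - 2 * η ≤ (1 - η) ^ 2 := by nlinarith
        have k6 : (1 + η) ^ 2 * κ ≤ (1 + 3 * η) * κ := by gcongr
        have k7 : (κ + ε / 2) * (1 - 2 * η) ≤ (κ + ε / 2) * (1 - η) ^ 2 := by gcongr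
        have k8 : κ * η ≤ 1 * η := by gcongr
        have k9 : ε * η ≤ ε * (1 / 4) := by gcongr
        nlinarith
      calc (1 + η) * W (T N) ≤ (1 + η) * ((1 + η) * e * (κ * ℓ)) := by gcongr
        _ = ((1 + η) ^ 2 * κ) * (e * ℓ) := by ring
        _ ≤ ((κ + ε / 2) * (1 - η) ^ 2) * (e * ℓ) := by gcongr
        _ = (κ + ε / 2) * ((1 - η) * e * ((1 - η) * ℓ)) := by ring
        _ ≤ (κ + ε / 2) * W z := by gcongr
    obtain ⟨H1, H2⟩ := hm₀ m hm
    have hs := SHL_one (2 * m)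
    have h9 := H1 (κ + ε / 2) (by linarith) (by linarith) (fun a ha ham => by
      have h10 : T a ≤ T N := hT (by omega)
      have h11 : a₀ ≤ a := by
        have : (a₀ : ℝ) ≤ a := by
          refine le_trans ?_ ha
          rw [div_le_iff₀ hδ] at H2
          linarith
        exact_mod_cast this
      have h12 := hSs (T a) (ha₀ a h11) (h10.trans hTz)
      have h13 : (1 + η) * W (T a) * SHL (2 * m) ≤ (1 + η) * W (T N) * SHL (2 * m) := by
        have := W_mono h10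
        gcongr
      have h14 : (1 + η) * W (T N) * SHL (2 * m) ≤ (κ + ε / 2) * W z * SHL (2 * m) := by gcongr
      have h15 : Ss (2 * m) (T a) * W z ≤ (κ + ε / 2) * SHL (2 * m) * W z := by linarith
      exact le_of_mul_le_mul_right h15 hWz)
    linarith
  rw [frequently_atTop]
  intro M
  obtain ⟨N, h1, h2, h3⟩ := (hfr.and_eventually (ev.and (eventually_ge_atTop (4 * (M + m₀))))).exists
  obtain ⟨m, h4, h5⟩ := h2 h1
  exact ⟨m, by omega, h5 (by omega)⟩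

end Pool.Agent.U827.GM
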