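import Mathlib
import Pool.Agent.U827.GM.Ext

/-! The exact lower and upper limits of the number of Goldbach representations divided by
`n ^ 2 / (φ(n) log ^ 2 n)`, in sieved random models. -/

set_option autoImplicit false

namespace Pool.Agent.U827.GM

open MeasureTheory ProbabilityTheory Filter Finset Topology
open Pool.Agent.U839.Sv (Sieved)
open Pool.Agent.U839.Gb
open Pool.Agent.U839.Thin (tlog)
open Pool.Agent.U839.Fb (tloglog)

variable {Ω : Type*} [MeasurableSpace Ω] {μ : Measure Ω} [IsProbabilityMeasure μ]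

theorem nn_ge (y z k : ℕ) : k ≤ nn y z k := by
  have h1 : k ≤ 2 ^ k := Nat.lt_two_pow_self.le
  have h2 : 2 ^ k * 1 ≤ 2 ^ k * QQ y z := Nat.mul_le_mul_left _ (QQ_pos y z)
  unfold nn
  omega

theorem pw2 (ε : ℝ) (hε : 0 < ε) : ∃ᶠ m : ℕ in atTop,
    SHL (2 * m) ≤ (1 + ε) * (C2 * (((2 * m : ℕ) : ℝ) / Nat.totient (2 * m))) := by
  have hC := C2_low
  obtain ⟨y, hy⟩ := (cc_lim.eventually (gt_mem_nhds (show C2 < (1 + ε) * C2 by nlinarith))).exists
  rw [frequently_atTop]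
  intro M
  exact ⟨nn y y M, nn_ge y y M, SHL_nn_up ε hε.le le_rfl hy.le⟩

theorem base2 {m : ℕ} (hm : 1 ≤ m) : 0 < ((2 * m : ℕ) : ℝ) / (Real.log (2 * m : ℕ)) ^ 2 := by
  have h1 : (0 : ℝ) < (2 * m : ℕ) := by exact_mod_cast (by omega : 0 < 2 * m)
  have h2 : 0 < Real.log (2 * m : ℕ) := by
    apply Real.log_pos
    exact_mod_cast (by omega : 1 < 2 * m)
  positivity

theorem Gn_mul (m : ℕ) : Gn (2 * m) = ((2 * m : ℕ) : ℝ) / Nat.totient (2 * m) *
    (((2 * m : ℕ) : ℝ) / (Real.log (2 * m : ℕ)) ^ 2) := by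
  unfold Gn
  rw [div_mul_div_comm, sq]

theorem HLp_mul (m : ℕ) : HLp (2 * m) = SHL (2 * m) * (((2 * m : ℕ) : ℝ) / (Real.log (2 * m : ℕ)) ^ 2) := by
  unfold HLp
  rw [mul_div_assoc]

theorem Gn_C2 {m : ℕ} (hm : 1 ≤ m) : C2 * Gn (2 * m) ≤ HLp (2 * m) := by
  rw [Gn_mul, HLp_mul, ← mul_assoc]
  exact mul_le_mul_of_nonneg_right (SHL_phi (n := 2 * m) (by omega) ⟨m, rfl⟩).1 (base2 hm).le

theorem few' (T : ℕ → ℕ) (hT : Monotone T)
    (hTs : ∀ ε : ℝ, 0 < ε → ∀ᶠ n : ℕ in atTop, (T n : ℝ) ≤ (n : ℝ) ^ ε) (hTi : Tendsto T atTop atTop)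
    {E : ℕ → Set Ω} (hE : Sieved μ E T) (κ : ℝ) (d3 : 0 ≤ κ) (d4 : κ ≤ 1)
    (d2 : ∀ ε : ℝ, 0 < ε → ∃ᶠ n : ℕ in atTop, min 1 (Real.log (T n) / Real.log (Real.log n)) ≤ κ + ε)
    (ε : ℝ) (hε : 0 < ε) : ∃ᶠ m : ℕ in atTop, Mh μ E m ≤ κ + ε ∧ HLp (2 * m) ≤ (1 + ε) * (C2 * Gn (2 * m)) := by
  have conv : ∀ η : ℝ, η ≤ ε → ∀ m : ℕ, 1 ≤ m →
      SHL (2 * m) ≤ (1 + η) * (C2 * (((2 * m : ℕ) : ℝ) / Nat.totient (2 * m))) →
      HLp (2 * m) ≤ (1 + ε) * (C2 * Gn (2 * m)) := by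
    intro η hηε m hm h
    have hC := C2_low
    have h1 : SHL (2 * m) ≤ (1 + ε) * (C2 * (((2 * m : ℕ) : ℝ) / Nat.totient (2 * m))) := by
      refine h.trans (mul_le_mul_of_nonneg_right (by linarith) ?_)
      positivity
    rw [Gn_mul, HLp_mul, ← mul_assoc, ← mul_assoc, mul_assoc (1 + ε)]
    exact mul_le_mul_of_nonneg_right h1 (base2 hm).le
  rcases eq_or_lt_of_le d4 with h | h
  · apply ((pw2 ε hε).and_eventually ((upper T hT hTs hTi hE ε hε).and (eventually_ge_atTop 1))).mono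
    rintro m ⟨h1, h2, h3⟩
    rw [h]
    exact ⟨h2, conv ε le_rfl m h3 h1⟩
  · obtain ⟨η, hη⟩ : ∃ η, η = min (ε / 2) (min ((1 - κ) / 2) 1) := ⟨_, rfl⟩
    have hη0 : 0 < η := by
      rw [hη]
      apply lt_min (by linarith) (lt_min (by linarith) one_pos)
    have hη1 : η ≤ 1 := by rw [hη]; exact (min_le_right _ _).trans (min_le_right _ _)
    have hη2 : η ≤ (1 - κ) / 2 := by rw [hη]; exact (min_le_right _ _).trans (min_le_left _ _)
    have hη3 : η ≤ ε / 2 := by rw [hη]; exact min_le_left _ _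
    have h1 := few T hT hTs hTi hE (κ + η) (by linarith) (by linarith) (by
      apply ((d2 η hη0).and_eventually (tloglog.eventually_gt_atTop 0)).mono
      rintro n ⟨h2, h3⟩
      rcases min_le_iff.1 h2 with h4 | h4
      · linarith
      · rwa [div_le_iff₀ h3] at h4) η hη0 hη1
    apply (h1.and_eventually (eventually_ge_atTop 1)).mono
    rintro m ⟨⟨h2, h3⟩, h4⟩
    exact ⟨by linarith, conv η (by linarith) m h4 h3⟩

/-- the exact limits, in terms of `ε` -/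
theorem extremes0 (T : ℕ → ℕ) (hT : Monotone T)
    (hTs : ∀ ε : ℝ, 0 < ε → ∀ᶠ n : ℕ in atTop, (T n : ℝ) ≤ (n : ℝ) ^ ε) (hTi : Tendsto T atTop atTop)
    {E : ℕ → Set Ω} (hE : Sieved μ E T) : ∀ᵐ ω ∂μ,
      ((∀ ε : ℝ, 0 < ε → ∀ᶠ m : ℕ in atTop,
          C2 * depth T - ε ≤ (rp {n | ω ∈ E n} (2 * m) : ℝ) / Gn (2 * m)) ∧
        ∀ ε : ℝ, 0 < ε → ∃ᶠ m : ℕ in atTop,
          (rp {n | ω ∈ E n} (2 * m) : ℝ) / Gn (2 * m) ≤ C2 * depth T + ε) ∧
      (∀ ε : ℝ, 0 < ε → ∀ᶠ m : ℕ in atTop, (rp {n | ω ∈ E n} (2 * m) : ℝ) / Gn (2 * m) ≤ 1 + ε) ∧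
        ∀ ε : ℝ, 0 < ε → ∃ᶠ m : ℕ in atTop, 1 - ε ≤ (rp {n | ω ∈ E n} (2 * m) : ℝ) / Gn (2 * m) := by
  -- the depth
  have hg : ∀ᶠ n : ℕ in atTop, 0 ≤ min 1 (Real.log (T n) / Real.log (Real.log n)) ∧
      min 1 (Real.log (T n) / Real.log (Real.log n)) ≤ 1 := by
    filter_upwards [tloglog.eventually_gt_atTop 0] with n g1
    refine ⟨le_min zero_le_one (div_nonneg (Real.log_natCast_nonneg _) g1.le), min_le_left _ _⟩
  obtain ⟨d1, d2, d3, d4⟩ := of_liminf _ hg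
  have hdd : liminf (fun n : ℕ => min 1 (Real.log (T n) / Real.log (Real.log n))) atTop = depth T := rfl
  rw [hdd] at d3 d4
  simp only [hdd] at d1 d2
  obtain ⟨κ, hκ⟩ : ∃ κ, κ = depth T := ⟨_, rfl⟩
  rw [← hκ] at d1 d2 d3 d4 ⊢
  have hpos := pos T hT hTs hTi hE κ d4 (fun ε hε => by
    filter_upwards [d1 ε hε, tloglog.eventually_gt_atTop 0] with n h1 h2
    have h3 := h1.trans (min_le_right _ _)
    rwa [le_div_iff₀ h2] at h3)
  have hup := upper T hT hTs hTi hE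
  have hfew := few' T hT hTs hTi hE κ d3 d4 d2
  have hmany := many T hT hTs hTi hE
  have hconc := conc hE.meas hE.indep (low_sqrt T hT hTs hTi hE)
  have hC := C2_low
  have hC1 : C2 ≤ 1 := (C2_le 0).trans (cc_le 0)
  filter_upwards [hconc] with ω hω
  have hcl := close hω ((hup 1 one_pos).mono (fun m h => by linarith))
  obtain ⟨R, hR⟩ : ∃ R : ℕ → ℝ, R = fun m : ℕ => (rp {n | ω ∈ E n} (2 * m) : ℝ) / HLp (2 * m) := ⟨_, rfl⟩
  have hcl' : ∀ ε : ℝ, 0 < ε → ∀ᶠ m : ℕ in atTop, |R m - Mh μ E m| ≤ ε := by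
    intro ε hε
    rw [hR]
    exact hcl ε hε
  obtain ⟨F, hF⟩ : ∃ F : ℕ → ℝ, F = fun m : ℕ => (rp {n | ω ∈ E n} (2 * m) : ℝ) / Gn (2 * m) := ⟨_, rfl⟩
  -- the ratio
  have hFR : ∀ m : ℕ, 1 ≤ m → 0 ≤ R m ∧ 0 ≤ F m ∧ F m * Gn (2 * m) = R m * HLp (2 * m) ∧ 0 < Gn (2 * m) ∧
      HLp (2 * m) ≤ Gn (2 * m) ∧ C2 * Gn (2 * m) ≤ HLp (2 * m) := by
    intro m hm
    obtain ⟨h5, h6, h7⟩ := Gn_bound hm
    have h0 : 0 < HLp (2 * m) := by
      rw [HLp_eq]
      linarith [hHL_pos hm]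
    refine ⟨?_, ?_, ?_, h5, h6, Gn_C2 hm⟩
    · rw [hR]
      exact div_nonneg (Nat.cast_nonneg _) h0.le
    · rw [hF]
      exact div_nonneg (Nat.cast_nonneg _) h5.le
    · rw [hR, hF]
      simp only
      rw [div_mul_cancel₀ _ h0.ne', div_mul_cancel₀ _ h5.ne']
  have hFe : ∀ m : ℕ, (rp {n | ω ∈ E n} (2 * m) : ℝ) / Gn (2 * m) = F m := fun m => by rw [hF]
  simp only [hFe]
  constructor
  · constructor
    · intro ε hε
      filter_upwards [hcl' (ε / 2) (by linarith), hpos (ε / 2) (by linarith), eventually_ge_atTop 1]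
        with m h1 h2 h3
      obtain ⟨k1, k2, k3, k4, k5, k6⟩ := hFR m h3
      have h4 := (abs_le.1 h1).1
      have h5 : κ - ε ≤ R m := by linarith
      have h6 : R m * (C2 * Gn (2 * m)) ≤ R m * HLp (2 * m) := mul_le_mul_of_nonneg_left k6 k1
      have h7 : (R m * C2) * Gn (2 * m) ≤ F m * Gn (2 * m) := by linarith
      have h8 := le_of_mul_le_mul_right h7 k4
      nlinarith
    · intro ε hε
      obtain ⟨η, hη⟩ : ∃ η, η = min (ε / 8) (1 / 4) := ⟨_, rfl⟩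
      have hη0 : 0 < η := by rw [hη]; positivity
      have hη1 : η ≤ 1 / 4 := by rw [hη]; exact min_le_right _ _
      have hηε : η ≤ ε / 8 := by rw [hη]; exact min_le_left _ _
      apply ((hfew η hη0).and_eventually ((hcl' η hη0).and (eventually_ge_atTop 1))).mono
      rintro m ⟨⟨h1, h2⟩, h3, h4⟩
      obtain ⟨k1, k2, k3, k4, k5, k6⟩ := hFR m h4
      have h5 := (abs_le.1 h3).2
      have h6 : R m ≤ κ + 2 * η := by linarith
      have h7 : R m * HLp (2 * m) ≤ (κ + 2 * η) * ((1 + η) * (C2 * Gn (2 * m))) := by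
        refine (mul_le_mul_of_nonneg_left h2 k1).trans ?_
        apply mul_le_mul_of_nonneg_right h6
        positivity
      have h8 : F m * Gn (2 * m) ≤ ((κ + 2 * η) * (1 + η) * C2) * Gn (2 * m) := by
        rw [k3]
        linarith
      have h9 := le_of_mul_le_mul_right h8 k4
      refine h9.trans ?_
      have h10 : (κ + 2 * η) * (1 + η) ≤ κ + 4 * η := by nlinarith
      have h11 : (κ + 2 * η) * (1 + η) * C2 ≤ (κ + 4 * η) * C2 := by gcongr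
      nlinarith
  · constructor
    · intro ε hε
      filter_upwards [hcl' (ε / 2) (by linarith), hup (ε / 2) (by linarith), eventually_ge_atTop 1]
        with m h1 h2 h3
      obtain ⟨k1, k2, k3, k4, k5, k6⟩ := hFR m h3
      have h4 := (abs_le.1 h1).2
      have h5 : R m ≤ 1 + ε := by linarith
      have h7 : F m * Gn (2 * m) ≤ R m * Gn (2 * m) := by
        rw [k3]
        exact mul_le_mul_of_nonneg_left k5 k1
      exact (le_of_mul_le_mul_right h7 k4).trans h5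
    · intro ε hε
      obtain ⟨η, hη⟩ : ∃ η, η = min (ε / 8) (1 / 4) := ⟨_, rfl⟩
      have hη0 : 0 < η := by rw [hη]; positivity
      have hη1 : η ≤ 1 / 4 := by rw [hη]; exact min_le_right _ _
      have hηε : η ≤ ε / 8 := by rw [hη]; exact min_le_left _ _
      apply ((hmany η hη0).and_eventually ((hcl' η hη0).and (eventually_ge_atTop 1))).mono
      rintro m ⟨⟨h1, h2⟩, h3, h4⟩
      obtain ⟨k1, k2, k3, k4, k5, k6⟩ := hFR m h4
      have h5 := (abs_le.1 h3).1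
      have h6 : 1 - 2 * η ≤ R m := by linarith
      have h7 : Gn (2 * m) ≤ (1 + η) * HLp (2 * m) := by
        rw [Gn_mul, HLp_mul, ← mul_assoc]
        exact mul_le_mul_of_nonneg_right h2 (base2 h4).le
      have h8 : R m * Gn (2 * m) ≤ R m * ((1 + η) * HLp (2 * m)) := mul_le_mul_of_nonneg_left h7 k1
      have h9 : R m * Gn (2 * m) ≤ ((1 + η) * F m) * Gn (2 * m) := by
        calc R m * Gn (2 * m) ≤ R m * ((1 + η) * HLp (2 * m)) := h8
          _ = (1 + η) * (R m * HLp (2 * m)) := by ring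
          _ = ((1 + η) * F m) * Gn (2 * m) := by rw [← k3]; ring
      have h10 := le_of_mul_le_mul_right h9 k4
      by_contra hcon
      push Not at hcon
      nlinarith

/-- the exact limits -/
theorem extremes (T : ℕ → ℕ) (hT : Monotone T)
    (hTs : ∀ ε : ℝ, 0 < ε → ∀ᶠ n : ℕ in atTop, (T n : ℝ) ≤ (n : ℝ) ^ ε) (hTi : Tendsto T atTop atTop)
    {E : ℕ → Set Ω} (hE : Sieved μ E T) : ∀ᵐ ω ∂μ,
      liminf (fun m : ℕ => (rp {n | ω ∈ E n} (2 * m) : ℝ) / Gn (2 * m)) atTop = C2 * depth T ∧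
      limsup (fun m : ℕ => (rp {n | ω ∈ E n} (2 * m) : ℝ) / Gn (2 * m)) atTop = 1 := by
  filter_upwards [extremes0 T hT hTs hTi hE] with ω hω
  exact ⟨liminf_of _ _ hω.1.1 hω.1.2, limsup_of _ _ hω.2.1 hω.2.2⟩

end Pool.Agent.U827.GM
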