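import Mathlib
import Pool.Agent.U827.GM.Gold

/-! The number of Goldbach representations in sieved random models: Gaussian fluctuations and square root
error (uses the library `U839.Gb` of helper839). -/

set_option autoImplicit false

namespace Pool.Agent.U827.GM

open MeasureTheory ProbabilityTheory Filter Finset Topology
open Pool.Agent.U839.Sv (Sieved fT fT_nonneg dens log_sq_small)
open Pool.Agent.U839.Gb
open Pool.Agent.U839.Thin (tlog)
open Pool.Agent.U839.Fb (tloglog)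
open Pool.Agent.U949.CL (I1 I1_meas)

variable {Ω : Type*} [MeasurableSpace Ω] {μ : Measure Ω} [IsProbabilityMeasure μ]

omit [IsProbabilityMeasure μ] in
theorem small {T : ℕ → ℕ} (hTs : ∀ ε : ℝ, 0 < ε → ∀ᶠ n : ℕ in atTop, (T n : ℝ) ≤ (n : ℝ) ^ ε)
    {E : ℕ → Set Ω} (hE : Sieved μ E T) (η : ℝ) (hη : 0 < η) :
    ∀ᶠ m : ℕ in atTop, ∀ n, m ≤ n → μ.real (E n) ≤ η := by
  obtain ⟨N, hN⟩ := eventually_atTop.1 (dens T hTs η hη)
  filter_upwards [eventually_ge_atTop N] with m hm n hn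
  rw [hE.law]
  exact (min_le_right _ _).trans (hN n (hm.trans hn))

theorem var_low {T : ℕ → ℕ} (hTs : ∀ ε : ℝ, 0 < ε → ∀ᶠ n : ℕ in atTop, (T n : ℝ) ≤ (n : ℝ) ^ ε)
    {E : ℕ → Set Ω} (hE : Sieved μ E T) (η : ℝ) (hη : 0 < η) :
    ∀ᶠ m : ℕ in atTop, 4 * ((1 - η) * MM μ E m) ≤ varR (fun n => μ.real (E n)) m := by
  filter_upwards [small hTs hE η hη] with m hm
  have h1 : ∑ a ∈ range m, (1 - η) * (μ.real (E a) * μ.real (E (2 * m - a))) ≤
      ∑ a ∈ range m, μ.real (E a) * μ.real (E (2 * m - a)) *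
        (1 - μ.real (E a) * μ.real (E (2 * m - a))) := by
    apply sum_le_sum
    intro a ha
    rw [mem_range] at ha
    have h2 := hm (2 * m - a) (by omega)
    have h3 : 0 ≤ μ.real (E a) := measureReal_nonneg
    have h4 : μ.real (E a) ≤ 1 := measureReal_le_one
    have h5 : 0 ≤ μ.real (E (2 * m - a)) := measureReal_nonneg
    have h6 : μ.real (E a) * μ.real (E (2 * m - a)) ≤ η := by nlinarith
    nlinarith [mul_nonneg h3 h5]
  rw [← mul_sum] at h1
  have h8 : μ.real (E m) ≤ 1 := measureReal_le_one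
  have h7 : 0 ≤ μ.real (E m) * (1 - μ.real (E m)) := mul_nonneg measureReal_nonneg (by linarith)
  unfold varR MM
  simp only
  linarith

omit [IsProbabilityMeasure μ] in
theorem var_up (E : ℕ → Set Ω) (m : ℕ) :
    varR (fun n => μ.real (E n)) m ≤ 2 * meanR (fun n => μ.real (E n)) m := by
  have h1 : ∑ a ∈ range m, μ.real (E a) * μ.real (E (2 * m - a)) *
      (1 - μ.real (E a) * μ.real (E (2 * m - a))) ≤
      ∑ a ∈ range m, μ.real (E a) * μ.real (E (2 * m - a)) := by
    apply sum_le_sum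
    intro a _
    have h3 : 0 ≤ μ.real (E a) * μ.real (E (2 * m - a)) := mul_nonneg measureReal_nonneg measureReal_nonneg
    nlinarith
  have h2 : 0 ≤ μ.real (E m) := measureReal_nonneg
  unfold varR meanR
  simp only
  nlinarith

omit [IsProbabilityMeasure μ] in
theorem meanR_eq (E : ℕ → Set Ω) (m : ℕ) :
    meanR (fun n => μ.real (E n)) m = 2 * MM μ E m + μ.real (E m) := rfl

theorem pw_large (x : ℝ) : ∀ᶠ m : ℕ in atTop, x ≤ (m : ℝ) ^ (1 / 2 : ℝ) :=
  ((tendsto_rpow_atTop (by norm_num)).comp tendsto_natCast_atTop_atTop).eventually_ge_atTop x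

theorem var_tendsto (T : ℕ → ℕ) (hT : Monotone T)
    (hTs : ∀ ε : ℝ, 0 < ε → ∀ᶠ n : ℕ in atTop, (T n : ℝ) ≤ (n : ℝ) ^ ε) (hTi : Tendsto T atTop atTop)
    {E : ℕ → Set Ω} (hE : Sieved μ E T) :
    Tendsto (fun m : ℕ => varR (fun n => μ.real (E n)) m) atTop atTop := by
  rw [tendsto_atTop]
  intro x
  filter_upwards [var_low hTs hE (1 / 2) (by norm_num), low_sqrt T hT hTs hTi hE, pw_large x,
    pw_large 0] with m h1 h2 h3 h4
  linarith

theorem var_asymp (T : ℕ → ℕ) (hT : Monotone T)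
    (hTs : ∀ ε : ℝ, 0 < ε → ∀ᶠ n : ℕ in atTop, (T n : ℝ) ≤ (n : ℝ) ^ ε) (hTi : Tendsto T atTop atTop)
    {E : ℕ → Set Ω} (hE : Sieved μ E T) (ε : ℝ) (hε : 0 < ε) : ∀ᶠ m : ℕ in atTop,
      (2 - ε) * meanR (fun n => μ.real (E n)) m ≤ varR (fun n => μ.real (E n)) m := by
  filter_upwards [var_low hTs hE (ε / 4) (by positivity), low_sqrt T hT hTs hTi hE,
    pw_large (2 / ε)] with m h1 h2 h3
  rw [meanR_eq]
  have h4 : 0 ≤ μ.real (E m) := measureReal_nonneg
  have h5 : μ.real (E m) ≤ 1 := measureReal_le_one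
  have h6 : 2 ≤ ε * MM μ E m := by
    have := h3.trans h2
    rwa [div_le_iff₀ hε, mul_comm] at this
  nlinarith

theorem wt_le (m a : ℕ) : |wt m a| ≤ 2 := by
  unfold wt
  split_ifs <;> norm_num

/-- Gaussian fluctuations -/
theorem gauss (T : ℕ → ℕ) (hT : Monotone T)
    (hTs : ∀ ε : ℝ, 0 < ε → ∀ᶠ n : ℕ in atTop, (T n : ℝ) ≤ (n : ℝ) ^ ε) (hTi : Tendsto T atTop atTop)
    {E : ℕ → Set Ω} (hE : Sieved μ E T) (x : ℝ) :
    Tendsto (fun m : ℕ => μ.real {ω | (rp {n | ω ∈ E n} (2 * m) : ℝ) -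
      meanR (fun n => μ.real (E n)) m ≤ x * √(varR (fun n => μ.real (E n)) m)}) atTop
      (𝓝 ((gaussianReal 0 1).real (Set.Iic x))) := by
  have hv := var_tendsto T hT hTs hTi hE
  have h := clt (μ := μ) (fun m => FM E m) (fun m a => FM_meas hE.meas m a)
    (fun m => FM_indep hE.meas hE.indep m)
    (fun m => range (m + 1)) wt (fun _ => 2) (fun m => varR (fun n => μ.real (E n)) m) 3
    (fun m => var_eq hE.indep m) atTop (Eventually.of_forall fun m a _ => wt_le m a) (fun _ => by norm_num)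
    (hv.eventually_gt_atTop 0) ?_ ?_ x
  · refine h.congr fun m => ?_
    congr 1
    ext ω
    have e := rp_sub hE.indep m ω
    constructor
    · intro g
      have g' : ∑ a ∈ range (m + 1), wt m a * (I1 (FM E m a) ω - μ.real (FM E m a)) ≤
        x * √(varR (fun n => μ.real (E n)) m) := g
      rw [← e] at g'
      exact g'
    · intro g
      have g' : (rp {n | ω ∈ E n} (2 * m) : ℝ) - meanR (fun n => μ.real (E n)) m ≤
        x * √(varR (fun n => μ.real (E n)) m) := g
      rw [e] at g'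
      exact g'
  · exact (Real.tendsto_sqrt_atTop.comp hv).const_div_atTop 2
  · filter_upwards [var_low hTs hE (1 / 2) (by norm_num), low_sqrt T hT hTs hTi hE, pw_large 1]
      with m h1 h2 h3
    rw [sum_wt_sq m (fun a => μ.real (FM E m a)), FM_self]
    have h4 : ∑ a ∈ range m, μ.real (FM E m a) = MM μ E m :=
      sum_congr rfl fun a ha => FM_lt hE.indep (mem_range.1 ha)
    have h5 : μ.real (E m) ≤ 1 := measureReal_le_one
    rw [h4]
    linarith

/-- square root error -/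
theorem sq_err (T : ℕ → ℕ) (hT : Monotone T)
    (hTs : ∀ ε : ℝ, 0 < ε → ∀ᶠ n : ℕ in atTop, (T n : ℝ) ≤ (n : ℝ) ^ ε) (hTi : Tendsto T atTop atTop)
    {E : ℕ → Set Ω} (hE : Sieved μ E T) : ∀ᵐ ω ∂μ, ∀ᶠ m : ℕ in atTop,
      |(rp {n | ω ∈ E n} (2 * m) : ℝ) - meanR (fun n => μ.real (E n)) m| ≤
        3 * √(varR (fun n => μ.real (E n)) m * Real.log m) := by
  have h := sqrt_error (μ := μ) (fun m => FM E m) (fun m a => FM_meas hE.meas m a)
    (fun m => FM_indep hE.meas hE.indep m)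
    (fun m => range (m + 1)) wt (fun _ => 2) (fun m => varR (fun n => μ.real (E n)) m)
    (fun m => var_eq hE.indep m) (fun _ => True) (Eventually.of_forall fun m _ a _ => wt_le m a) ?_
  · filter_upwards [h] with ω hω
    filter_upwards [hω] with m hm
    rw [rp_sub hE.indep]
    exact hm trivial
  · filter_upwards [var_low hTs hE (1 / 2) (by norm_num), low_sqrt T hT hTs hTi hE,
      log_sq_small 8 (1 / 2) (by norm_num) (by norm_num), tlog.eventually_ge_atTop 1]
      with m h1 h2 h3 h4 _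
    have h5 : 8 * Real.log m ≤ 8 * Real.log m ^ 2 := by nlinarith
    constructor
    · nlinarith
    · nlinarith

end Pool.Agent.U827.GM
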