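import Mathlib
import Pool.Agent.U827.GM.Lim
import Pool.Agent.U827.GM.EV
import Pool.Agent.U827.GM.Ext2

/-! The number of Goldbach partitions `2 m = a + b` with `√(2 m) < a < m`, in sieved random models. -/

set_option autoImplicit false

namespace Pool.Agent.U827.GM

open MeasureTheory ProbabilityTheory Filter Finset Topology
open Pool.Agent.U839.Sv (Sieved log_sq_small)
open Pool.Agent.U839.Gb
open Pool.Agent.U839.Thin (tlog)
open Pool.Agent.U949.CL (I1 I1_meas)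

variable {Ω : Type*} [MeasurableSpace Ω] {μ : Measure Ω} [IsProbabilityMeasure μ]

/-- the admissible small summands -/
def Pf (m : ℕ) : Finset ℕ := (range m).filter (fun a => 2 * m < a ^ 2)

open Classical in
/-- the number of partitions -/
noncomputable def sp (Q : Set ℕ) (m : ℕ) : ℕ :=
  ((range m).filter (fun a => 2 * m < a ^ 2 ∧ a ∈ Q ∧ 2 * m - a ∈ Q)).card

/-- the mean -/
noncomputable def meanS (p : ℕ → ℝ) (m : ℕ) : ℝ := ∑ a ∈ Pf m, p a * p (2 * m - a)

/-- the variance -/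
noncomputable def varS (p : ℕ → ℝ) (m : ℕ) : ℝ :=
  ∑ a ∈ Pf m, p a * p (2 * m - a) * (1 - p a * p (2 * m - a))

theorem Pf_lt {m a : ℕ} (ha : a ∈ Pf m) : a < m := by
  unfold Pf at ha
  rw [mem_filter, mem_range] at ha
  exact ha.1

omit [IsProbabilityMeasure μ] in
theorem varS_eq {E : ℕ → Set Ω} (hE : iIndepSet E μ) (m : ℕ) :
    varS (fun n => μ.real (E n)) m = ∑ a ∈ Pf m, (1 : ℝ) ^ 2 *
      (μ.real (FM E m a) * (1 - μ.real (FM E m a))) := by
  unfold varS
  refine sum_congr rfl fun a ha => ?_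
  rw [FM_lt hE (Pf_lt ha), one_pow, one_mul]

omit [IsProbabilityMeasure μ] in
theorem meanS_eq {E : ℕ → Set Ω} (hE : iIndepSet E μ) (m : ℕ) :
    meanS (fun n => μ.real (E n)) m = ∑ a ∈ Pf m, μ.real (FM E m a) := by
  unfold meanS
  exact sum_congr rfl fun a ha => (FM_lt hE (Pf_lt ha)).symm

omit [MeasurableSpace Ω] in
theorem sp_eq (E : ℕ → Set Ω) (m : ℕ) (ω : Ω) :
    (sp {n | ω ∈ E n} m : ℝ) = ∑ a ∈ Pf m, I1 (FM E m a) ω := by
  classical
  unfold sp Pf
  rw [← filter_filter, card_filter]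
  push_cast
  refine sum_congr rfl fun a ha => ?_
  rw [mem_filter, mem_range] at ha
  unfold I1
  rw [Set.indicator_apply]
  congr 1
  unfold FM Um
  rw [if_pos ha.1]
  simp

omit [IsProbabilityMeasure μ] in
theorem sp_sub {E : ℕ → Set Ω} (hE : iIndepSet E μ) (m : ℕ) (ω : Ω) :
    (sp {n | ω ∈ E n} m : ℝ) - meanS (fun n => μ.real (E n)) m =
      ∑ a ∈ Pf m, 1 * (I1 (FM E m a) ω - μ.real (FM E m a)) := by
  rw [sp_eq, meanS_eq hE, ← sum_sub_distrib]
  exact sum_congr rfl fun a _ => by ring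

theorem sp_int {E : ℕ → Set Ω} (hm : ∀ n, MeasurableSet (E n)) (hE : iIndepSet E μ) (m : ℕ) :
    ∫ ω, (sp {n | ω ∈ E n} m : ℝ) ∂μ = meanS (fun n => μ.real (E n)) m := by
  simp only [sp_eq]
  rw [integral_finsetSum _ fun a _ => (I1_mem (FM_meas hm m a)).integrable (by norm_num),
    meanS_eq hE]
  exact sum_congr rfl fun a _ => I1_int (FM_meas hm m a)

theorem sp_var {E : ℕ → Set Ω} (hm : ∀ n, MeasurableSet (E n)) (hE : iIndepSet E μ) (m : ℕ) :
    Var[fun ω => (sp {n | ω ∈ E n} m : ℝ); μ] = varS (fun n => μ.real (E n)) m := by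
  have h0 : (fun ω => (sp {n | ω ∈ E n} m : ℝ)) = ∑ a ∈ Pf m, I1 (FM E m a) := by
    ext ω
    rw [sp_eq, Finset.sum_apply]
  have hind : iIndepFun (fun a => I1 (FM E m a)) μ := (FM_indep hm hE m).iIndepFun_indicator
  have h1 : Var[∑ a ∈ Pf m, I1 (FM E m a); μ] = ∑ a ∈ Pf m, Var[I1 (FM E m a); μ] := by
    apply IndepFun.variance_sum
    · intro a _
      exact I1_mem (FM_meas hm m a)
    · intro a _ b _ hab
      exact hind.indepFun hab
  rw [h0, h1, varS_eq hE]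
  refine sum_congr rfl fun a _ => ?_
  rw [I1_var (FM_meas hm m a)]
  ring

/-- the omitted summands -/
theorem omitted (m : ℕ) (f : ℕ → ℝ) (c : ℝ) (hc : 0 ≤ c) (hf0 : ∀ a, 0 ≤ f a) (hf : ∀ a, a < m → f a ≤ c) :
    ∑ a ∈ Pf m, f a ≤ ∑ a ∈ range m, f a ∧
      ∑ a ∈ range m, f a ≤ ∑ a ∈ Pf m, f a + c * (Nat.sqrt (2 * m) + 1) := by
  have hsub : Pf m ⊆ range m := filter_subset _ _
  refine ⟨sum_le_sum_of_subset_of_nonneg hsub fun a _ _ => hf0 a, ?_⟩
  rw [← sum_sdiff hsub, add_comm]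
  refine add_le_add le_rfl ?_
  have h1 : ∑ a ∈ range m \ Pf m, f a ≤ ∑ a ∈ range m \ Pf m, c := by
    apply sum_le_sum
    intro a ha
    rw [Finset.mem_sdiff, mem_range] at ha
    exact hf a ha.1
  refine h1.trans ?_
  rw [sum_const, nsmul_eq_mul, mul_comm]
  apply mul_le_mul_of_nonneg_left _ hc
  have h2 : range m \ Pf m ⊆ range (Nat.sqrt (2 * m) + 1) := by
    intro a ha
    rw [Finset.mem_sdiff, mem_range] at ha
    rw [mem_range]
    by_contra hcon
    apply ha.2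
    unfold Pf
    rw [mem_filter, mem_range]
    refine ⟨ha.1, ?_⟩
    exact Nat.sqrt_lt'.1 (by omega)
  have h3 := card_le_card h2
  rw [card_range] at h3
  exact_mod_cast h3

theorem sqrt_le (m : ℕ) : (Nat.sqrt (2 * m) : ℝ) ≤ 2 * (m : ℝ) ^ (1 / 2 : ℝ) := by
  rw [← Real.sqrt_eq_rpow]
  have h1 : Nat.sqrt (2 * m) ≤ Nat.sqrt (2 * m) := le_rfl
  have h2 : (Nat.sqrt (2 * m) : ℝ) ≤ √((2 * m : ℕ) : ℝ) := Real.nat_sqrt_le_real_sqrt
  have h3 : √((2 * m : ℕ) : ℝ) ≤ √((2 : ℝ) ^ 2 * m) := by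
    apply Real.sqrt_le_sqrt
    push_cast
    have : (0 : ℝ) ≤ m := Nat.cast_nonneg m
    linarith
  rw [Real.sqrt_mul (by norm_num), Real.sqrt_sq (by norm_num)] at h3
  exact h2.trans h3

theorem meanS_low (T : ℕ → ℕ) (hT : Monotone T)
    (hTs : ∀ ε : ℝ, 0 < ε → ∀ᶠ n : ℕ in atTop, (T n : ℝ) ≤ (n : ℝ) ^ ε) (hTi : Tendsto T atTop atTop)
    {E : ℕ → Set Ω} (hE : Sieved μ E T) :
    ∀ᶠ m : ℕ in atTop, 1 / 2 * (m : ℝ) ^ (1 / 2 : ℝ) ≤ meanS (fun n => μ.real (E n)) m := by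
  filter_upwards [small hTs hE (1 / 8) (by norm_num), low_sqrt T hT hTs hTi hE, pw_large 1]
    with m h1 h2 h3
  have h4 := (omitted m (fun a => μ.real (E a) * μ.real (E (2 * m - a))) (1 / 8) (by norm_num)
    (fun a => mul_nonneg measureReal_nonneg measureReal_nonneg) (fun a ha => by
      have k2 := h1 (2 * m - a) (by omega)
      have k3 : 0 ≤ μ.real (E a) := measureReal_nonneg
      have k4 : μ.real (E a) ≤ 1 := measureReal_le_one
      have k5 : 0 ≤ μ.real (E (2 * m - a)) := measureReal_nonneg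
      nlinarith)).2
  have h5 := sqrt_le m
  have h6 : ∑ a ∈ range m, μ.real (E a) * μ.real (E (2 * m - a)) = MM μ E m := rfl
  have h7 : ∑ a ∈ Pf m, μ.real (E a) * μ.real (E (2 * m - a)) = meanS (fun n => μ.real (E n)) m := rfl
  rw [h6, h7] at h4
  linarith

theorem varS_low {T : ℕ → ℕ} (hTs : ∀ ε : ℝ, 0 < ε → ∀ᶠ n : ℕ in atTop, (T n : ℝ) ≤ (n : ℝ) ^ ε)
    {E : ℕ → Set Ω} (hE : Sieved μ E T) (η : ℝ) (hη : 0 < η) :
    ∀ᶠ m : ℕ in atTop, (1 - η) * meanS (fun n => μ.real (E n)) m ≤ varS (fun n => μ.real (E n)) m := by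
  filter_upwards [small hTs hE η hη] with m hm
  unfold meanS varS
  rw [mul_sum]
  apply sum_le_sum
  intro a ha
  have ha' := Pf_lt ha
  have h2 := hm (2 * m - a) (by omega)
  have h3 : 0 ≤ μ.real (E a) := measureReal_nonneg
  have h4 : μ.real (E a) ≤ 1 := measureReal_le_one
  have h5 : 0 ≤ μ.real (E (2 * m - a)) := measureReal_nonneg
  have h6 : μ.real (E a) * μ.real (E (2 * m - a)) ≤ η := by nlinarith
  simp only
  nlinarith [mul_nonneg h3 h5]

omit [IsProbabilityMeasure μ] in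
theorem varS_up (E : ℕ → Set Ω) (m : ℕ) :
    varS (fun n => μ.real (E n)) m ≤ meanS (fun n => μ.real (E n)) m := by
  unfold meanS varS
  apply sum_le_sum
  intro a _
  have h3 : 0 ≤ μ.real (E a) * μ.real (E (2 * m - a)) := mul_nonneg measureReal_nonneg measureReal_nonneg
  simp only
  nlinarith

theorem varS_tendsto (T : ℕ → ℕ) (hT : Monotone T)
    (hTs : ∀ ε : ℝ, 0 < ε → ∀ᶠ n : ℕ in atTop, (T n : ℝ) ≤ (n : ℝ) ^ ε) (hTi : Tendsto T atTop atTop)
    {E : ℕ → Set Ω} (hE : Sieved μ E T) :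
    Tendsto (fun m : ℕ => varS (fun n => μ.real (E n)) m) atTop atTop := by
  rw [tendsto_atTop]
  intro x
  filter_upwards [varS_low hTs hE (1 / 2) (by norm_num), meanS_low T hT hTs hTi hE, pw_large (4 * x)]
    with m h1 h2 h3
  linarith

/-- Gaussian fluctuations -/
theorem gaussS (T : ℕ → ℕ) (hT : Monotone T)
    (hTs : ∀ ε : ℝ, 0 < ε → ∀ᶠ n : ℕ in atTop, (T n : ℝ) ≤ (n : ℝ) ^ ε) (hTi : Tendsto T atTop atTop)
    {E : ℕ → Set Ω} (hE : Sieved μ E T) (x : ℝ) :
    Tendsto (fun m : ℕ => μ.real {ω | (sp {n | ω ∈ E n} m : ℝ) -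
      meanS (fun n => μ.real (E n)) m ≤ x * √(varS (fun n => μ.real (E n)) m)}) atTop
      (𝓝 ((gaussianReal 0 1).real (Set.Iic x))) := by
  have hv := varS_tendsto T hT hTs hTi hE
  have h := clt (μ := μ) (fun m => FM E m) (fun m a => FM_meas hE.meas m a)
    (fun m => FM_indep hE.meas hE.indep m)
    Pf (fun _ _ => 1) (fun _ => 1) (fun m => varS (fun n => μ.real (E n)) m) 2
    (fun m => varS_eq hE.indep m) atTop (Eventually.of_forall fun m a _ => by norm_num) (fun _ => by norm_num)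
    (hv.eventually_gt_atTop 0) ?_ ?_ x
  · refine h.congr fun m => ?_
    congr 1
    ext ω
    have e := sp_sub hE.indep m ω
    constructor
    · intro g
      have g' : ∑ a ∈ Pf m, 1 * (I1 (FM E m a) ω - μ.real (FM E m a)) ≤
        x * √(varS (fun n => μ.real (E n)) m) := g
      rw [← e] at g'
      exact g'
    · intro g
      have g' : (sp {n | ω ∈ E n} m : ℝ) - meanS (fun n => μ.real (E n)) m ≤
        x * √(varS (fun n => μ.real (E n)) m) := g
      rw [e] at g'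
      exact g'
  · exact (Real.tendsto_sqrt_atTop.comp hv).const_div_atTop 1
  · filter_upwards [varS_low hTs hE (1 / 2) (by norm_num)] with m h1
    simp only [one_pow, one_mul]
    rw [← meanS_eq hE.indep]
    linarith

/-- square root error -/
theorem sq_errS (T : ℕ → ℕ) (hT : Monotone T)
    (hTs : ∀ ε : ℝ, 0 < ε → ∀ᶠ n : ℕ in atTop, (T n : ℝ) ≤ (n : ℝ) ^ ε) (hTi : Tendsto T atTop atTop)
    {E : ℕ → Set Ω} (hE : Sieved μ E T) : ∀ᵐ ω ∂μ, ∀ᶠ m : ℕ in atTop,
      |(sp {n | ω ∈ E n} m : ℝ) - meanS (fun n => μ.real (E n)) m| ≤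
        3 * √(varS (fun n => μ.real (E n)) m * Real.log m) := by
  have h := sqrt_error (μ := μ) (fun m => FM E m) (fun m a => FM_meas hE.meas m a)
    (fun m => FM_indep hE.meas hE.indep m)
    Pf (fun _ _ => 1) (fun _ => 1) (fun m => varS (fun n => μ.real (E n)) m)
    (fun m => varS_eq hE.indep m) (fun _ => True) (Eventually.of_forall fun m _ a _ => by norm_num) ?_
  · filter_upwards [h] with ω hω
    filter_upwards [hω] with m hm
    rw [sp_sub hE.indep]
    exact hm trivial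
  · filter_upwards [varS_low hTs hE (1 / 2) (by norm_num), meanS_low T hT hTs hTi hE,
      log_sq_small 16 (1 / 2) (by norm_num) (by norm_num), tlog.eventually_ge_atTop 1]
      with m h1 h2 h3 h4 _
    have h5 : 16 * Real.log m ≤ 16 * Real.log m ^ 2 := by nlinarith
    constructor
    · nlinarith
    · nlinarith

/-- the difference with the number of representations -/
theorem sp_close (Q : Set ℕ) (ε : ℝ) (hε : 0 < ε) : ∀ᶠ m : ℕ in atTop,
    |2 * (sp Q m : ℝ) / Gn (2 * m) - (rp Q (2 * m) : ℝ) / Gn (2 * m)| ≤ ε := by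
  filter_upwards [log_sq_small (28 / ε) (1 / 2) (by positivity) (by norm_num),
    eventually_ge_atTop 2] with m h1 h2
  classical
  have hm0 : (0 : ℝ) < m := by exact_mod_cast (by omega : 0 < m)
  obtain ⟨h5, h6, h7⟩ := Gn_bound (m := m) (by omega)
  have hb := base2 (m := m) (by omega)
  obtain ⟨f, hf⟩ : ∃ f : ℕ → ℝ, f = fun a => if a ∈ Q ∧ 2 * m - a ∈ Q then (1 : ℝ) else 0 := ⟨_, rfl⟩
  have hf0 : ∀ a, 0 ≤ f a := by
    intro a
    rw [hf]
    simp only
    split_ifs <;> norm_num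
  have hf1 : ∀ a, f a ≤ 1 := by
    intro a
    rw [hf]
    simp only
    split_ifs <;> norm_num
  have e1 : (sp Q m : ℝ) = ∑ a ∈ Pf m, f a := by
    unfold sp Pf
    rw [← filter_filter, card_filter, hf]
    push_cast
    exact sum_congr rfl fun a _ => by congr
  have e2 : (rp Q (2 * m) : ℝ) = 2 * ∑ a ∈ range m, f a + (if m ∈ Q then (1 : ℝ) else 0) := by
    rw [rp_eq, hf]
  have e3 : 0 ≤ (if m ∈ Q then (1 : ℝ) else 0) ∧ (if m ∈ Q then (1 : ℝ) else 0) ≤ 1 := by
    split_ifs <;> norm_num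
  obtain ⟨k1, k2⟩ := omitted m f 1 zero_le_one hf0 fun a _ => hf1 a
  rw [← e1] at k1 k2
  have k3 := sqrt_le m
  have hs0 : (m : ℝ) ^ (1 / 2 : ℝ) * (m : ℝ) ^ (1 / 2 : ℝ) = m := by
    rw [← Real.rpow_add hm0]
    norm_num
  obtain ⟨s, hs⟩ : ∃ s, s = (m : ℝ) ^ (1 / 2 : ℝ) := ⟨_, rfl⟩
  rw [← hs] at h1 k3 hs0
  have hs1 : 1 ≤ s := by
    have : 0 ≤ 28 / ε * (Real.log m) ^ 2 := by positivity
    linarith
  have k4 : |2 * (sp Q m : ℝ) - rp Q (2 * m)| ≤ 7 * s := by
    rw [abs_le, e2]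
    constructor <;> linarith [e3.1, e3.2]
  rw [← sub_div, abs_div, abs_of_pos h5, div_le_iff₀ h5]
  refine k4.trans ?_
  -- the lower bound for `Gn`
  have hL : Real.log (2 * m : ℕ) ≤ 2 * Real.log m := by
    push_cast
    rw [Real.log_mul (by norm_num) hm0.ne']
    have hm2 : (2 : ℝ) ≤ m := by exact_mod_cast h2
    have := Real.log_le_log (by norm_num) hm2
    linarith
  have hL0 : 0 < Real.log (2 * m : ℕ) := by
    apply Real.log_pos
    exact_mod_cast (by omega : 1 < 2 * m)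
  have hG : ((2 * m : ℕ) : ℝ) / (Real.log (2 * m : ℕ)) ^ 2 ≤ Gn (2 * m) := by
    refine le_trans ?_ h6
    rw [HLp_mul]
    have := SHL_one (2 * m)
    nlinarith
  refine le_trans ?_ (mul_le_mul_of_nonneg_left hG hε.le)
  rw [← mul_div_assoc, le_div_iff₀ (by positivity)]
  have h8 : (Real.log (2 * m : ℕ)) ^ 2 ≤ (2 * Real.log m) ^ 2 := pow_le_pow_left₀ hL0.le hL 2
  have h9 : 28 * (Real.log m) ^ 2 ≤ ε * s := by
    have : 28 / ε * (Real.log m) ^ 2 ≤ s := by linarith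
    rw [div_mul_eq_mul_div, div_le_iff₀ hε] at this
    linarith
  calc 7 * s * (Real.log (2 * m : ℕ)) ^ 2 ≤ 7 * s * (2 * Real.log m) ^ 2 := by gcongr
    _ = s * (28 * (Real.log m) ^ 2) := by ring
    _ ≤ s * (ε * s) := by gcongr
    _ = ε * m := by rw [← hs0]; ring
    _ ≤ ε * ((2 * m : ℕ) : ℝ) := by
        push_cast
        apply mul_le_mul_of_nonneg_left _ hε.le
        linarith

/-- the exact limits -/
theorem extremesS (T : ℕ → ℕ) (hT : Monotone T)
    (hTs : ∀ ε : ℝ, 0 < ε → ∀ᶠ n : ℕ in atTop, (T n : ℝ) ≤ (n : ℝ) ^ ε) (hTi : Tendsto T atTop atTop)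
    {E : ℕ → Set Ω} (hE : Sieved μ E T) : ∀ᵐ ω ∂μ,
      liminf (fun m : ℕ => 2 * (sp {n | ω ∈ E n} m : ℝ) / Gn (2 * m)) atTop = C2 * depth T ∧
      limsup (fun m : ℕ => 2 * (sp {n | ω ∈ E n} m : ℝ) / Gn (2 * m)) atTop = 1 := by
  filter_upwards [extremes0 T hT hTs hTi hE] with ω hω
  have hc := sp_close {n | ω ∈ E n}
  constructor
  · apply liminf_of
    · intro ε hε
      filter_upwards [hc (ε / 2) (by positivity), hω.1.1 (ε / 2) (by positivity)] with m h1 h2
      linarith [(abs_le.1 h1).1]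
    · intro ε hε
      apply ((hω.1.2 (ε / 2) (by positivity)).and_eventually (hc (ε / 2) (by positivity))).mono
      rintro m ⟨h1, h2⟩
      linarith [(abs_le.1 h2).2]
  · apply limsup_of
    · intro ε hε
      filter_upwards [hc (ε / 2) (by positivity), hω.2.1 (ε / 2) (by positivity)] with m h1 h2
      linarith [(abs_le.1 h1).2]
    · intro ε hε
      apply ((hω.2.2 (ε / 2) (by positivity)).and_eventually (hc (ε / 2) (by positivity))).mono
      rintro m ⟨h1, h2⟩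
      linarith [(abs_le.1 h2).1]

/-- there is a partition -/
theorem spos (T : ℕ → ℕ) (hT : Monotone T)
    (hTs : ∀ ε : ℝ, 0 < ε → ∀ᶠ n : ℕ in atTop, (T n : ℝ) ≤ (n : ℝ) ^ ε) (hTi : Tendsto T atTop atTop)
    {E : ℕ → Set Ω} (hE : Sieved μ E T) : ∀ᵐ ω ∂μ, ∀ᶠ m : ℕ in atTop, 0 < sp {n | ω ∈ E n} m := by
  filter_upwards [sq_errS T hT hTs hTi hE] with ω hω
  filter_upwards [hω, meanS_low T hT hTs hTi hE, log_sq_small 36 (1 / 2) (by norm_num) (by norm_num),
    tlog.eventually_ge_atTop 1, eventually_ge_atTop 1] with m h1 h2 h3 h4 h5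
  have hm0 : (0 : ℝ) < m := by exact_mod_cast h5
  have hv := varS_up (μ := μ) E m
  obtain ⟨M, hM⟩ : ∃ M, M = meanS (fun n => μ.real (E n)) m := ⟨_, rfl⟩
  rw [← hM] at h1 h2 hv
  have h6 : 9 * (M * Real.log m) < M ^ 2 := by
    have h7 : 36 * Real.log m ≤ 36 * Real.log m ^ 2 := by nlinarith
    have h8 : 9 * Real.log m < M := by linarith
    have h9 : 0 < M := by linarith
    nlinarith
  have h10 : 3 * √(varS (fun n => μ.real (E n)) m * Real.log m) < M := by
    have h11 : √(varS (fun n => μ.real (E n)) m * Real.log m) ≤ √(M * Real.log m) :=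
      Real.sqrt_le_sqrt (mul_le_mul_of_nonneg_right hv (by linarith))
    have h12 : √(M * Real.log m) < M / 3 := by
      have h9 : 0 < M := by
        have : 0 < (m : ℝ) ^ (1 / 2 : ℝ) := by positivity
        linarith
      rw [Real.sqrt_lt' (by positivity)]
      nlinarith
    linarith
  have h13 := (abs_le.1 h1).1
  have h14 : (0 : ℝ) < sp {n | ω ∈ E n} m := by linarith
  exact_mod_cast h14

end Pool.Agent.U827.GM
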